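import Pool.Agent.Y933.KD.Fej

/-!
# Incomplete sums with an arbitrary linear phase (helper951)
-/

set_option autoImplicit false

namespace Pool.Agent.Y951.MW

open Finset Real
open Pool.Agent.Y933.KD

lemma geom_le (θ : ℝ) (u v : ℕ) :
    ‖∑ n ∈ Ioc u v, e (n * θ)‖ * (2 * |θ - round θ|) ≤ 1 := by
  rcases Nat.lt_or_ge v u with huv | huv
  · rw [Ioc_eq_empty (by omega), sum_empty, norm_zero, zero_mul]
    exact zero_le_one
  have h1 : (∑ n ∈ Ioc u v, e (n * θ)) * (e θ - 1) = e ((v + 1 : ℝ) * θ) - e ((u + 1 : ℝ) * θ) := by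
    induction v, huv using Nat.le_induction with
    | base => simp
    | succ v hv ih =>
      rw [sum_Ioc_succ_top (by omega), add_mul, ih]
      have h2 : e (((v + 1 : ℕ) : ℝ) * θ) * e θ = e (((v + 1 : ℕ) + 1 : ℝ) * θ) := by
        rw [← e_add]; congr 1; ring
      rw [mul_sub, h2, mul_one]
      push_cast
      ring
  have h2 : ‖∑ n ∈ Ioc u v, e (n * θ)‖ * ‖e θ - 1‖ ≤ 2 := by
    rw [← norm_mul, h1]
    refine (norm_sub_le _ _).trans ?_
    rw [norm_e, norm_e]
    norm_num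
  have h3 : 4 * |θ - round θ| ≤ ‖e θ - 1‖ := by
    rw [norm_e_sub_one, abs_sin_pi]
    have := two_mul_le_sin (abs_nonneg (θ - round θ)) (abs_sub_round θ)
    linarith
  have h4 : ‖∑ n ∈ Ioc u v, e (n * θ)‖ * (4 * |θ - round θ|) ≤ 2 :=
    (mul_le_mul_of_nonneg_left h3 (norm_nonneg _)).trans h2
  linarith

lemma round_ge {x w s : ℝ} {m : ℤ} (hx : x = m + s) (h0 : w ≤ s) (h1 : w ≤ 1 - s) :
    w ≤ |x - round x| := by
  rcases le_or_gt (round x) m with h | h
  · have h2 : (round x : ℝ) ≤ m := by exact_mod_cast h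
    refine le_trans ?_ (le_abs_self _)
    rw [hx] at h2 ⊢
    linarith
  · have h2 : (m : ℝ) + 1 ≤ round x := by exact_mod_cast h
    refine le_trans ?_ (neg_le_abs _)
    rw [hx] at h2 ⊢
    linarith

/-- the sum over the frequencies -/
lemma sum_dist {p : ℕ} (hp : 1 ≤ p) (η : ℝ) {N : ℝ} (hN : 0 ≤ N) (F : ℕ → ℝ)
    (hF : ∀ a, F a ≤ N) (hF0 : ∀ a, 0 ≤ F a)
    (hF1 : ∀ a, F a * (2 * |(η - (a : ℝ) / p) - round (η - (a : ℝ) / p)|) ≤ 1) :
    ∑ a ∈ range p, F a ≤ 2 * N + p * (1 + Real.log p) := by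
  classical
  have hpR : (0 : ℝ) < p := by exact_mod_cast hp
  have hpZ : (0 : ℤ) < p := by exact_mod_cast hp
  set z : ℕ → ℤ := fun a => (⌊(p : ℝ) * η⌋ - a) % p with hz
  have hz0 : ∀ a, 0 ≤ z a := fun a => Int.emod_nonneg _ hpZ.ne'
  have hz1 : ∀ a, z a < p := fun a => Int.emod_lt_of_pos _ hpZ
  set g : ℕ → ℝ := fun m => if m = 0 then N else p / (2 * m) with hg
  have hg0 : ∀ m, 0 ≤ g m := by
    intro m
    rw [hg]
    simp only
    split_ifs
    · exact hN
    · positivity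
  have key : ∀ a, F a ≤ g (z a).toNat + g (p - 1 - (z a).toNat) := by
    intro a
    have h1 : η - (a : ℝ) / p = ((⌊(p : ℝ) * η⌋ - a) / (p : ℤ) : ℤ) +
        ((z a : ℝ) + Int.fract ((p : ℝ) * η)) / p := by
      have h2 : ((⌊(p : ℝ) * η⌋ - a : ℤ) : ℝ) =
          p * (((⌊(p : ℝ) * η⌋ - a) / (p : ℤ) : ℤ) : ℝ) + (z a : ℝ) := by
        have := Int.mul_ediv_add_emod (⌊(p : ℝ) * η⌋ - a) p
        rw [hz]
        exact_mod_cast this.symm
      have h3 : (p : ℝ) * η = (⌊(p : ℝ) * η⌋ : ℝ) + Int.fract ((p : ℝ) * η) :=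
        (Int.floor_add_fract _).symm
      push_cast at h2
      have h4 : η - (a : ℝ) / p = ((p : ℝ) * η - a) / p := by
        rw [sub_div, mul_div_cancel_left₀ _ hpR.ne']
      have h5 : (p : ℝ) * η - a = p * (((⌊(p : ℝ) * η⌋ - a) / (p : ℤ) : ℤ) : ℝ) +
          ((z a : ℝ) + Int.fract ((p : ℝ) * η)) := by
        linarith
      rw [h4, h5, add_div, mul_div_cancel_left₀ _ hpR.ne']
    have hf0 := Int.fract_nonneg ((p : ℝ) * η)
    have hf1 := Int.fract_lt_one ((p : ℝ) * η)
    set t := (z a).toNat with ht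
    have htz : (z a : ℝ) = t := by
      have : ((t : ℕ) : ℤ) = z a := Int.toNat_of_nonneg (hz0 a)
      exact_mod_cast this.symm
    have htp : t + 1 ≤ p := by
      have := hz1 a
      have h3 : ((t : ℕ) : ℤ) = z a := Int.toNat_of_nonneg (hz0 a)
      omega
    rcases Nat.eq_zero_or_pos t with h0 | h0
    · have h2 : g t = N := by rw [hg]; simp [h0]
      rw [h2]
      linarith [hF a, hg0 (p - 1 - t)]
    rcases Nat.eq_zero_or_pos (p - 1 - t) with h0' | h0'
    · have h2 : g (p - 1 - t) = N := by rw [hg]; simp [h0']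
      rw [h2]
      linarith [hF a, hg0 t]
    have hgt : g t = p / (2 * t) := by rw [hg]; simp only; rw [if_neg (by omega)]
    have hgt' : g (p - 1 - t) = p / (2 * ((p - 1 - t : ℕ) : ℝ)) := by
      rw [hg]; simp only; rw [if_neg (by omega)]
    have htR : (1 : ℝ) ≤ t := by exact_mod_cast h0
    have htR' : (1 : ℝ) ≤ ((p - 1 - t : ℕ) : ℝ) := by exact_mod_cast h0'
    have hsub : ((p - 1 - t : ℕ) : ℝ) = p - 1 - t := by
      rw [Nat.sub_sub, Nat.cast_sub (by omega)]
      push_cast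
      ring
    rcases le_total t (p - 1 - t) with h2 | h2
    · have hd : (t : ℝ) / p ≤ |(η - (a : ℝ) / p) - round (η - (a : ℝ) / p)| := by
        refine round_ge h1 ?_ ?_
        · rw [htz]; gcongr; linarith
        · rw [htz, le_sub_iff_add_le, ← add_div, div_le_one hpR]
          have h3 : (t : ℝ) ≤ ((p - 1 - t : ℕ) : ℝ) := by exact_mod_cast h2
          rw [hsub] at h3
          linarith
      have h3 : F a * (2 * ((t : ℝ) / p)) ≤ 1 :=
        (mul_le_mul_of_nonneg_left (by linarith) (hF0 a)).trans (hF1 a)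
      have h4 : F a ≤ g t := by
        rw [hgt, le_div_iff₀ (by positivity)]
        have h5 : F a * (2 * ((t : ℝ) / p)) = F a * (2 * t) / p := by ring
        rw [h5, div_le_one hpR] at h3
        exact h3
      linarith [hg0 (p - 1 - t)]
    · have hd : ((p - 1 - t : ℕ) : ℝ) / p ≤ |(η - (a : ℝ) / p) - round (η - (a : ℝ) / p)| := by
        refine round_ge h1 ?_ ?_
        · rw [htz]
          have h3 : ((p - 1 - t : ℕ) : ℝ) ≤ t := by exact_mod_cast h2
          gcongr
          linarith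
        · rw [htz, le_sub_iff_add_le, ← add_div, div_le_one hpR, hsub]
          linarith
      have h3 : F a * (2 * (((p - 1 - t : ℕ) : ℝ) / p)) ≤ 1 :=
        (mul_le_mul_of_nonneg_left (by linarith) (hF0 a)).trans (hF1 a)
      have h4 : F a ≤ g (p - 1 - t) := by
        rw [hgt', le_div_iff₀ (by positivity)]
        have h5 : F a * (2 * (((p - 1 - t : ℕ) : ℝ) / p)) =
          F a * (2 * ((p - 1 - t : ℕ) : ℝ)) / p := by ring
        rw [h5, div_le_one hpR] at h3
        exact h3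
      linarith [hg0 t]
  have hinj : Set.InjOn (fun a : ℕ => (z a).toNat) (range p : Finset ℕ) := by
    intro a ha b hb hab
    simp only [coe_range, Set.mem_Iio] at ha hb hab
    have h1 : z a = z b := by
      have := hz0 a
      have := hz0 b
      omega
    have h2 : (⌊(p : ℝ) * η⌋ - a) ≡ (⌊(p : ℝ) * η⌋ - b) [ZMOD p] := h1
    have h3 := (Int.modEq_iff_dvd.1 h2)
    have h4 : (p : ℤ) ∣ (a : ℤ) - b := by
      have h5 : (⌊(p : ℝ) * η⌋ - (b : ℤ)) - (⌊(p : ℝ) * η⌋ - a) = (a : ℤ) - b := by ring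
      rwa [h5] at h3
    obtain ⟨c, hc⟩ := h4
    have hc0 : c = 0 := by
      by_contra hne
      rcases lt_or_gt_of_ne hne with h | h
      · have : (p : ℤ) * c ≤ p * (-1) := mul_le_mul_of_nonneg_left (by omega) hpZ.le
        omega
      · have : (p : ℤ) * 1 ≤ p * c := mul_le_mul_of_nonneg_left (by omega) hpZ.le
        omega
    rw [hc0, mul_zero] at hc
    omega
  have hsum : ∑ m ∈ range p, g m ≤ N + p / 2 * (1 + Real.log p) := by
    have h1 : p = (p - 1) + 1 := by omega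
    have h2 : ∑ m ∈ range p, g m = g 0 + ∑ m ∈ range (p - 1), g (m + 1) := by
      conv_lhs => rw [h1]
      rw [sum_range_succ', add_comm]
    have h3 : ∑ m ∈ range (p - 1), g (m + 1) = p / 2 * ∑ m ∈ range (p - 1), ((m : ℝ) + 1)⁻¹ := by
      rw [mul_sum]
      refine sum_congr rfl fun m _ => ?_
      rw [hg]
      simp only
      rw [if_neg (by omega)]
      push_cast
      field_simp
    have h4 : ∑ m ∈ range (p - 1), ((m : ℝ) + 1)⁻¹ ≤ 1 + Real.log p := by
      have h5 := harmonic_le_one_add_log (p - 1)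
      have h6 : ((harmonic (p - 1) : ℚ) : ℝ) = ∑ m ∈ range (p - 1), ((m : ℝ) + 1)⁻¹ := by
        unfold harmonic
        push_cast
        rfl
      rw [h6] at h5
      refine h5.trans ?_
      rcases Nat.eq_zero_or_pos (p - 1) with h7 | h7
      · rw [h7, Nat.cast_zero, Real.log_zero]
        have : 0 ≤ Real.log p := Real.log_nonneg (by exact_mod_cast hp)
        linarith
      · have : Real.log ((p - 1 : ℕ) : ℝ) ≤ Real.log p :=
          Real.log_le_log (by exact_mod_cast h7) (by exact_mod_cast (by omega : p - 1 ≤ p))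
        linarith
    have h5 : g 0 = N := by rw [hg]; simp
    rw [h2, h3, h5]
    have h6 : (p : ℝ) / 2 * ∑ m ∈ range (p - 1), ((m : ℝ) + 1)⁻¹ ≤ p / 2 * (1 + Real.log p) :=
      mul_le_mul_of_nonneg_left h4 (by positivity)
    linarith
  calc ∑ a ∈ range p, F a ≤ ∑ a ∈ range p, (g (z a).toNat + g (p - 1 - (z a).toNat)) :=
        sum_le_sum fun a _ => key a
    _ = ∑ m ∈ (range p).image (fun a : ℕ => (z a).toNat), (g m + g (p - 1 - m)) := by
        rw [sum_image hinj]
    _ ≤ ∑ m ∈ range p, (g m + g (p - 1 - m)) := by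
        refine sum_le_sum_of_subset_of_nonneg ?_ fun m _ _ => add_nonneg (hg0 _) (hg0 _)
        intro m hm
        rw [mem_image] at hm
        obtain ⟨a, _, rfl⟩ := hm
        rw [mem_range]
        have := hz0 a
        have := hz1 a
        omega
    _ = 2 * ∑ m ∈ range p, g m := by
        rw [sum_add_distrib, sum_range_reflect, two_mul]
    _ ≤ 2 * (N + p / 2 * (1 + Real.log p)) := by linarith
    _ = _ := by ring

section

variable {p : ℕ} [Fact p.Prime]

lemma psi_int (j : ℤ) : (ZMod.stdAddChar (j : ZMod p) : ℂ) = e ((j : ℝ) / p) := by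
  rw [ZMod.stdAddChar_coe]
  unfold e
  congr 1
  push_cast
  ring

lemma sum_val (F : ℕ → ℝ) : ∑ a : ZMod p, F a.val = ∑ j ∈ range p, F j := by
  have hpp : p.Prime := Fact.out
  haveI : NeZero p := ⟨hpp.ne_zero⟩
  refine sum_bij' (fun a _ => a.val) (fun j _ => (j : ZMod p)) ?_ ?_ ?_ ?_ ?_
  · intro a _
    exact mem_range.2 (ZMod.val_lt a)
  · intro j _
    exact mem_univ _
  · intro a _
    exact ZMod.natCast_zmod_val a
  · intro j hj
    exact ZMod.val_cast_of_lt (mem_range.1 hj)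
  · intro a _
    rfl

/-- **incomplete sums** -/
theorem incomplete {g : ZMod p → ℂ} {Γ : ℝ} (hΓ : 0 ≤ Γ)
    (hG : ∀ a : ZMod p, ‖∑ r : ZMod p, g r * (ZMod.stdAddChar (a * r) : ℂ)‖ ≤ Γ) (η : ℝ)
    {u v N : ℕ} (hv : v ≤ N) :
    ‖∑ n ∈ Ioc u v, g (n : ZMod p) * e (n * η)‖ ≤
      Γ / p * (2 * N + p * (1 + Real.log p)) := by
  classical
  have hpp : p.Prime := Fact.out
  have hpR : (0 : ℝ) < p := by exact_mod_cast hpp.pos
  have hpC : (p : ℂ) ≠ 0 := by exact_mod_cast hpp.ne_zero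
  set G : ZMod p → ℂ := fun a => ∑ r : ZMod p, g r * (ZMod.stdAddChar (a * r) : ℂ) with hGdef
  have h1 : ∀ n : ℕ, g (n : ZMod p) =
      1 / p * ∑ a : ZMod p, G a * (ZMod.stdAddChar (-(a * (n : ZMod p))) : ℂ) := by
    intro n
    have h2 : ∑ a : ZMod p, G a * (ZMod.stdAddChar (-(a * (n : ZMod p))) : ℂ) =
        ∑ r : ZMod p, g r *
          ∑ a : ZMod p, (ZMod.stdAddChar (a * (r - (n : ZMod p))) : ℂ) := by
      rw [hGdef]
      simp only [sum_mul, mul_sum]
      rw [sum_comm]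
      refine sum_congr rfl fun r _ => sum_congr rfl fun a _ => ?_
      rw [mul_assoc, ← AddChar.map_add_eq_mul]
      congr 2
      ring
    rw [h2, sum_eq_single (n : ZMod p)]
    · rw [AddChar.sum_mulShift _ (ZMod.isPrimitive_stdAddChar p), sub_self, if_pos rfl, ZMod.card]
      field_simp
    · intro r _ hr
      rw [AddChar.sum_mulShift _ (ZMod.isPrimitive_stdAddChar p), if_neg (sub_ne_zero.2 hr),
        Nat.cast_zero, mul_zero]
    · intro h
      exact absurd (mem_univ _) h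
  have h2 : ∀ (a : ZMod p) (n : ℕ), (ZMod.stdAddChar (-(a * (n : ZMod p))) : ℂ) * e (n * η) =
      e (n * (η - (a.val : ℝ) / p)) := by
    intro a n
    have h3 : -(a * (n : ZMod p)) = ((-((a.val : ℤ) * n) : ℤ) : ZMod p) := by
      push_cast
      rw [ZMod.natCast_zmod_val]
    rw [h3, psi_int, ← e_add]
    congr 1
    push_cast
    ring
  have h3 : ∑ n ∈ Ioc u v, g (n : ZMod p) * e (n * η) =
      1 / p * ∑ a : ZMod p, G a *
        ∑ n ∈ Ioc u v, e (n * (η - (a.val : ℝ) / p)) := by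
    rw [sum_congr rfl fun n _ => by rw [h1 n]]
    simp only [mul_assoc, sum_mul, mul_sum]
    rw [sum_comm]
    refine sum_congr rfl fun a _ => sum_congr rfl fun n _ => ?_
    rw [← h2 a n]
  set F : ℕ → ℝ := fun j => ‖∑ n ∈ Ioc u v, e (n * (η - (j : ℝ) / p))‖ with hF
  have h4 : ∑ j ∈ range p, F j ≤ 2 * N + p * (1 + Real.log p) := by
    refine sum_dist hpp.one_lt.le η (Nat.cast_nonneg N) F ?_ (fun a => norm_nonneg _)
      (fun a => geom_le _ u v)
    intro a
    refine (norm_sum_le _ _).trans ?_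
    rw [sum_congr rfl fun n _ => norm_e _, sum_const, Nat.card_Ioc, nsmul_eq_mul, mul_one]
    exact_mod_cast (by omega : v - u ≤ N)
  rw [h3, norm_mul]
  have h5 : ‖(1 / p : ℂ)‖ = 1 / p := by
    rw [norm_div, norm_one, Complex.norm_natCast]
  rw [h5]
  have h6 : ‖∑ a : ZMod p, G a *
      ∑ n ∈ Ioc u v, e (n * (η - (a.val : ℝ) / p))‖ ≤ Γ * ∑ j ∈ range p, F j := by
    rw [← sum_val (p := p) F, mul_sum]
    refine (norm_sum_le _ _).trans (sum_le_sum fun a _ => ?_)
    rw [norm_mul]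
    exact mul_le_mul_of_nonneg_right (hG a) (norm_nonneg _)
  calc 1 / (p : ℝ) * ‖∑ a : ZMod p, G a *
      ∑ n ∈ Ioc u v, e (n * (η - (a.val : ℝ) / p))‖ ≤
        1 / p * (Γ * (2 * N + p * (1 + Real.log p))) := by
        refine mul_le_mul_of_nonneg_left (h6.trans ?_) (by positivity)
        exact mul_le_mul_of_nonneg_left h4 hΓ
    _ = _ := by ring

end

end Pool.Agent.Y951.MW
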