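import Pool.Agent.Y951.MW.Large

/-!
# Incomplete sums for composite moduli and products of complete sums (helper951)
-/

set_option autoImplicit false

namespace Pool.Agent.Y951.MW

open Finset Real
open Pool.Agent.Y933.KD

section

variable {M : ℕ} [NeZero M]

lemma psi_intM (j : ℤ) : (ZMod.stdAddChar (j : ZMod M) : ℂ) = e ((j : ℝ) / M) := by
  rw [ZMod.stdAddChar_coe]
  unfold e
  congr 1
  push_cast
  ring

lemma sum_valM (F : ℕ → ℝ) : ∑ a : ZMod M, F a.val = ∑ j ∈ range M, F j := by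
  refine sum_bij' (fun a _ => a.val) (fun j _ => (j : ZMod M)) ?_ ?_ ?_ ?_ ?_
  · intro a _
    exact mem_range.2 (ZMod.val_lt a)
  · intro j _
    exact mem_univ _
  · intro a _
    exact ZMod.natCast_zmod_val a
  · intro j hj
    exact ZMod.val_cast_of_lt (mem_range.1 hj)
  · intro a _
    rfl

/-- **incomplete sums**, any modulus -/
theorem incompleteM {g : ZMod M → ℂ} {Γ : ℝ} (hΓ : 0 ≤ Γ)
    (hG : ∀ a : ZMod M, ‖∑ r : ZMod M, g r * (ZMod.stdAddChar (a * r) : ℂ)‖ ≤ Γ) (η : ℝ)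
    {u v N : ℕ} (hv : v ≤ N) :
    ‖∑ n ∈ Ioc u v, g (n : ZMod M) * e (n * η)‖ ≤
      Γ / M * (2 * N + M * (1 + Real.log M)) := by
  classical
  have hM0 : M ≠ 0 := NeZero.ne M
  have hM1 : 1 ≤ M := Nat.one_le_iff_ne_zero.2 hM0
  have hpR : (0 : ℝ) < M := by exact_mod_cast hM1
  have hpC : (M : ℂ) ≠ 0 := by exact_mod_cast hM0
  set G : ZMod M → ℂ := fun a => ∑ r : ZMod M, g r * (ZMod.stdAddChar (a * r) : ℂ) with hGdef
  have h1 : ∀ n : ℕ, g (n : ZMod M) =
      1 / M * ∑ a : ZMod M, G a * (ZMod.stdAddChar (-(a * (n : ZMod M))) : ℂ) := by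
    intro n
    have h2 : ∑ a : ZMod M, G a * (ZMod.stdAddChar (-(a * (n : ZMod M))) : ℂ) =
        ∑ r : ZMod M, g r *
          ∑ a : ZMod M, (ZMod.stdAddChar (a * (r - (n : ZMod M))) : ℂ) := by
      rw [hGdef]
      simp only [sum_mul, mul_sum]
      rw [sum_comm]
      refine sum_congr rfl fun r _ => sum_congr rfl fun a _ => ?_
      rw [mul_assoc, ← AddChar.map_add_eq_mul]
      congr 2
      ring
    rw [h2, sum_eq_single (n : ZMod M)]
    · rw [AddChar.sum_mulShift _ (ZMod.isPrimitive_stdAddChar M), sub_self, if_pos rfl, ZMod.card]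
      field_simp
    · intro r _ hr
      rw [AddChar.sum_mulShift _ (ZMod.isPrimitive_stdAddChar M), if_neg (sub_ne_zero.2 hr),
        Nat.cast_zero, mul_zero]
    · intro h
      exact absurd (mem_univ _) h
  have h2 : ∀ (a : ZMod M) (n : ℕ), (ZMod.stdAddChar (-(a * (n : ZMod M))) : ℂ) * e (n * η) =
      e (n * (η - (a.val : ℝ) / M)) := by
    intro a n
    have h3 : -(a * (n : ZMod M)) = ((-((a.val : ℤ) * n) : ℤ) : ZMod M) := by
      push_cast
      rw [ZMod.natCast_zmod_val]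
    rw [h3, psi_intM, ← e_add]
    congr 1
    push_cast
    ring
  have h3 : ∑ n ∈ Ioc u v, g (n : ZMod M) * e (n * η) =
      1 / M * ∑ a : ZMod M, G a *
        ∑ n ∈ Ioc u v, e (n * (η - (a.val : ℝ) / M)) := by
    rw [sum_congr rfl fun n _ => by rw [h1 n]]
    simp only [mul_assoc, sum_mul, mul_sum]
    rw [sum_comm]
    refine sum_congr rfl fun a _ => sum_congr rfl fun n _ => ?_
    rw [← h2 a n]
  set F : ℕ → ℝ := fun j => ‖∑ n ∈ Ioc u v, e (n * (η - (j : ℝ) / M))‖ with hF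
  have h4 : ∑ j ∈ range M, F j ≤ 2 * N + M * (1 + Real.log M) := by
    refine sum_dist hM1 η (Nat.cast_nonneg N) F ?_ (fun a => norm_nonneg _)
      (fun a => geom_le _ u v)
    intro a
    refine (norm_sum_le _ _).trans ?_
    rw [sum_congr rfl fun n _ => norm_e _, sum_const, Nat.card_Ioc, nsmul_eq_mul, mul_one]
    exact_mod_cast (by omega : v - u ≤ N)
  rw [h3, norm_mul]
  have h5 : ‖(1 / M : ℂ)‖ = 1 / M := by
    rw [norm_div, norm_one, Complex.norm_natCast]
  rw [h5]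
  have h6 : ‖∑ a : ZMod M, G a *
      ∑ n ∈ Ioc u v, e (n * (η - (a.val : ℝ) / M))‖ ≤ Γ * ∑ j ∈ range M, F j := by
    rw [← sum_valM (M := M) F, mul_sum]
    refine (norm_sum_le _ _).trans (sum_le_sum fun a _ => ?_)
    rw [norm_mul]
    exact mul_le_mul_of_nonneg_right (hG a) (norm_nonneg _)
  calc 1 / (M : ℝ) * ‖∑ a : ZMod M, G a *
      ∑ n ∈ Ioc u v, e (n * (η - (a.val : ℝ) / M))‖ ≤
        1 / M * (Γ * (2 * N + M * (1 + Real.log M))) := by
        refine mul_le_mul_of_nonneg_left (h6.trans ?_) (by positivity)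
        exact mul_le_mul_of_nonneg_left h4 hΓ
    _ = _ := by ring

end

/-- a complete sum modulo `m n` is a product of complete sums -/
theorem crt_sum {m n : ℕ} [NeZero m] [NeZero n] (hmn : m.Coprime n) (g1 : ZMod m → ℂ)
    (g2 : ZMod n → ℂ) (a : ZMod (m * n)) : ∃ (a1 : ZMod m) (a2 : ZMod n),
    ∑ r : ZMod (m * n), (g1 (ZMod.chineseRemainder hmn r).1 * g2 (ZMod.chineseRemainder hmn r).2) *
      (ZMod.stdAddChar (a * r) : ℂ) =
    (∑ x : ZMod m, g1 x * (ZMod.stdAddChar (a1 * x) : ℂ)) *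
      ∑ y : ZMod n, g2 y * (ZMod.stdAddChar (a2 * y) : ℂ) := by
  have hm0 : (m : ℝ) ≠ 0 := by exact_mod_cast NeZero.ne m
  have hn0 : (n : ℝ) ≠ 0 := by exact_mod_cast NeZero.ne n
  obtain ⟨v, u, huv⟩ := (Nat.isCoprime_iff_coprime.2 hmn : IsCoprime (m : ℤ) (n : ℤ))
  obtain ⟨i, rfl⟩ := ZMod.intCast_surjective a
  refine ⟨((u * i : ℤ) : ZMod m), ((v * i : ℤ) : ZMod n), ?_⟩
  rw [← Equiv.sum_comp (ZMod.chineseRemainder hmn).symm.toEquiv, Fintype.sum_prod_type,
    sum_mul_sum]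
  refine sum_congr rfl fun x _ => sum_congr rfl fun y _ => ?_
  have h0 : (ZMod.chineseRemainder hmn).symm.toEquiv (x, y) = (ZMod.chineseRemainder hmn).symm (x, y) :=
    rfl
  rw [h0, RingEquiv.apply_symm_apply]
  obtain ⟨j, hj⟩ := ZMod.intCast_surjective ((ZMod.chineseRemainder hmn).symm (x, y))
  have h1 : (x, y) = ((j : ZMod m), (j : ZMod n)) := by
    have h2 : ZMod.chineseRemainder hmn (j : ZMod (m * n)) = (x, y) := by
      rw [hj, RingEquiv.apply_symm_apply]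
    rw [← h2, map_intCast]
    rfl
  have hx : x = (j : ZMod m) := congrArg Prod.fst h1
  have hy : y = (j : ZMod n) := congrArg Prod.snd h1
  rw [← hj]
  have h3 : (ZMod.stdAddChar ((i : ZMod (m * n)) * (j : ZMod (m * n))) : ℂ) =
      (ZMod.stdAddChar (((u * i : ℤ) : ZMod m) * x) : ℂ) *
        (ZMod.stdAddChar (((v * i : ℤ) : ZMod n) * y) : ℂ) := by
    rw [hx, hy, ← Int.cast_mul, ← Int.cast_mul, ← Int.cast_mul, psi_intM, psi_intM, psi_intM, ← e_add]
    congr 1
    have h4 : (v : ℝ) * m + u * n = 1 := by exact_mod_cast huv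
    push_cast
    field_simp
    linear_combination (-(i : ℝ) * j) * h4
  rw [h3]
  ring

end Pool.Agent.Y951.MW
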