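import Pool.Agent.Y951.MW.Large
import Pool.Agent.Y951.WP.Main

/-!
# Large values of polynomial sums over all lower-order terms (helper951)
-/

set_option autoImplicit false

namespace Pool.Agent.Y951.MW

open Finset Real Polynomial
open Pool.Agent.Y933.KD

section

variable {p : ℕ} [Fact p.Prime]

/-- complete sums with a linear twist -/
lemma complete {F : (ZMod p)[X]} (hF2 : 2 ≤ F.natDegree) (hF : ¬ p ∣ F.natDegree) (a : ZMod p) :
    ‖∑ r : ZMod p, (ZMod.stdAddChar (F.eval r) : ℂ) * (ZMod.stdAddChar (a * r) : ℂ)‖ ≤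
      ((F.natDegree - 1 : ℕ) : ℝ) * √p := by
  have h1 : (F + C a * X).natDegree = F.natDegree := by
    refine natDegree_add_eq_left_of_natDegree_lt ?_
    have := natDegree_C_mul_le a (X : (ZMod p)[X])
    rw [natDegree_X] at this
    omega
  have h2 := WP.weil_le p (F + C a * X) (by rwa [h1]) (ZMod.isPrimitive_stdAddChar p)
  rw [h1] at h2
  refine le_trans (le_of_eq ?_) h2
  congr 1
  refine sum_congr rfl fun r _ => ?_
  rw [← AddChar.map_add_eq_mul, eval_add, eval_mul, eval_C, eval_X]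

/-- the bound for the differences -/
noncomputable def Gam (k p N : ℕ) : ℝ := ((k - 1 : ℕ) : ℝ) * √p / p * (2 * N + p * (1 + Real.log p))

lemma Gam_nonneg (k p N : ℕ) : 0 ≤ Gam k p N := by
  unfold Gam
  rcases Nat.eq_zero_or_pos p with h | h
  · simp [h]
  · have : 0 ≤ Real.log p := Real.log_nonneg (by exact_mod_cast h)
    positivity

/-- the polynomial attached to a leading coefficient and a lower-order part -/
noncomputable def pol (p k : ℕ) (b : ℕ) (h : ℤ[X]) : (ZMod p)[X] :=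
  C (b : ZMod p) * X ^ k + h.map (Int.castRingHom (ZMod p))

lemma pol_sub {k b b' : ℕ} (hb : b < p) (hb' : b' < p) (hne : b ≠ b') {h h' : ℤ[X]}
    (hh : h.natDegree < k) (hh' : h'.natDegree < k) : (pol p k b h - pol p k b' h').natDegree = k := by
  have h1 : pol p k b h - pol p k b' h' = C ((b : ZMod p) - (b' : ZMod p)) * X ^ k +
      (h.map (Int.castRingHom (ZMod p)) - h'.map (Int.castRingHom (ZMod p))) := by
    unfold pol
    rw [C_sub]
    ring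
  have h2 : (b : ZMod p) - (b' : ZMod p) ≠ 0 := by
    intro h3
    rw [sub_eq_zero] at h3
    apply hne
    have h4 := (ZMod.natCast_eq_natCast_iff' b b' p).1 h3
    rwa [Nat.mod_eq_of_lt hb, Nat.mod_eq_of_lt hb'] at h4
  have h3 : (C ((b : ZMod p) - (b' : ZMod p)) * X ^ k).natDegree = k := natDegree_C_mul_X_pow k _ h2
  rw [h1, natDegree_add_eq_left_of_natDegree_lt, h3]
  rw [h3]
  refine (natDegree_sub_le _ _).trans_lt ?_
  exact max_lt (natDegree_map_le.trans_lt hh) (natDegree_map_le.trans_lt hh')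

lemma pol_eval {k b n : ℕ} (h : ℤ[X]) : (ZMod.stdAddChar ((pol p k b h).eval (n : ZMod p)) : ℂ) =
    e ((((b : ℝ) * (n : ℝ) ^ k + ((h.eval (n : ℤ) : ℤ) : ℝ))) / p) := by
  have h1 : (pol p k b h).eval (n : ZMod p) = (((b : ℤ) * (n : ℤ) ^ k + h.eval (n : ℤ) : ℤ) : ZMod p) := by
    unfold pol
    rw [eval_add, eval_mul, eval_C, eval_pow, eval_X]
    push_cast
    congr 1
    have h2 : (n : ZMod p) = (Int.castRingHom (ZMod p)) (n : ℤ) := by simp
    rw [h2, eval_map, eval₂_at_apply]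
    rfl
  rw [h1, psi_int]
  congr 1
  push_cast
  rfl

/-- **the large value estimate** -/
theorem large_values {k : ℕ} (hk : 2 ≤ k) (hpk : ¬ p ∣ k) {N : ℕ} (c : ℕ → ℂ) (hc : ∀ n, ‖c n‖ ≤ 1)
    {V : ℝ} (hV : 0 < V) (hV2 : 2 * N * Gam k p N ≤ V ^ 2) :
    (({b : ℕ | b < p ∧ ∃ h : ℤ[X], h.natDegree < k ∧ ∃ (ξ : ℝ) (u v : ℕ), v ≤ N ∧
      V ≤ ‖∑ n ∈ Finset.Ioc u v, c n * e ((((b : ℝ) * (n : ℝ) ^ k + ((h.eval (n : ℤ) : ℤ) : ℝ))) / p +
        ξ * n)‖}.ncard : ℕ) : ℝ) ≤ 2 * N ^ 2 / V ^ 2 := by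
  classical
  have hpp : p.Prime := Fact.out
  set S : Set ℕ := {b : ℕ | b < p ∧ ∃ h : ℤ[X], h.natDegree < k ∧ ∃ (ξ : ℝ) (u v : ℕ), v ≤ N ∧
      V ≤ ‖∑ n ∈ Finset.Ioc u v, c n * e ((((b : ℝ) * (n : ℝ) ^ k + ((h.eval (n : ℤ) : ℤ) : ℝ))) / p +
        ξ * n)‖} with hS
  have hfin : S.Finite := (Set.finite_Iio p).subset fun b hb => hb.1
  have hex : ∀ b : ℕ, ∃ (h : ℤ[X]) (ξ : ℝ) (u v : ℕ), b ∈ S → h.natDegree < k ∧ v ≤ N ∧
      V ≤ ‖∑ n ∈ Finset.Ioc u v, c n * e ((((b : ℝ) * (n : ℝ) ^ k + ((h.eval (n : ℤ) : ℤ) : ℝ))) / p +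
        ξ * n)‖ := by
    intro b
    by_cases hb : b ∈ S
    · obtain ⟨_, h, h1, ξ, u, v, h2, h3⟩ := hb
      exact ⟨h, ξ, u, v, fun _ => ⟨h1, h2, h3⟩⟩
    · exact ⟨0, 0, 0, 0, fun h => absurd h hb⟩
  choose h ξ u v hex using hex
  have hncard : S.ncard = hfin.toFinset.card := Set.ncard_eq_toFinset_card S hfin
  rw [hncard]
  have hmem : ∀ b ∈ hfin.toFinset, b ∈ S := fun b hb => hfin.mem_toFinset.1 hb
  refine count (Nat.cast_nonneg _) hV hV2 (large (p := p) (Gam_nonneg k p N)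
    (fun b => pol p k b (h b)) hfin.toFinset ?_ c hc ξ u v (fun b hb => (hex b (hmem b hb)).2.1)
    hV.le ?_)
  · intro b hb b' hb' hne η u v hv
    have hd := pol_sub (hmem b hb).1 (hmem b' hb').1 hne (hex b (hmem b hb)).1
      (hex b' (hmem b' hb')).1
    have h1 := incomplete (p := p) (u := u)
      (g := fun r => (ZMod.stdAddChar ((pol p k b (h b) - pol p k b' (h b')).eval r) : ℂ))
      (Γ := ((k - 1 : ℕ) : ℝ) * √p) (by positivity) (by
        intro a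
        have h2 := complete (F := pol p k b (h b) - pol p k b' (h b')) (by rw [hd]; exact hk)
          (by rwa [hd]) a
        rwa [hd] at h2) η hv
    exact h1
  · intro b hb
    refine (hex b (hmem b hb)).2.2.trans (le_of_eq ?_)
    congr 1
    refine sum_congr rfl fun n _ => ?_
    rw [pol_eval, ← e_add, mul_comm (ξ b)]

end

lemma e_eq (x : ℝ) : e x = Complex.exp (2 * (Real.pi : ℂ) * Complex.I * (x : ℂ)) := by
  unfold e
  congr 1
  push_cast
  ring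

/-- **the estimate at an exponent `η ≤ 1/4`** -/
theorem montgomery {k : ℕ} (hk : 2 ≤ k) {η : ℝ} (hη0 : 0 ≤ η) (hη : η ≤ 1 / 4) {ε : ℝ} (hε : 0 < ε) : ∃ N₀ : ℕ, ∀ N : ℕ, N₀ ≤ N →
    ∀ q : ℕ, q.Prime → (q : ℝ) ≤ (N : ℝ) ^ (2 - 4 * η) → ∀ c : ℕ → ℂ, (∀ n, ‖c n‖ ≤ 1) →
    (({b : ℕ | b < q ∧ ∃ h : ℤ[X], h.natDegree < k ∧ ∃ (ξ : ℝ) (u v : ℕ), v ≤ N ∧
      (N : ℝ) ^ (1 + ε) * (max (1 / (q : ℝ)) (1 / (N : ℝ))) ^ (η) <
      ‖∑ n ∈ Finset.Ioc u v, c n * e ((((b : ℝ) * (n : ℝ) ^ k + ((h.eval (n : ℤ) : ℤ) : ℝ))) / q +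
        ξ * n)‖}.ncard : ℕ) : ℝ) ≤ 2 * (min (q : ℝ) (N : ℝ)) ^ (2 * η) / (N : ℝ) ^ (2 * ε) := by
  have hkR : (2 : ℝ) ≤ k := by exact_mod_cast hk
  have hk0 : (0 : ℝ) < k := by linarith
  set K : ℝ := 2 * k * (3 + 2 / ε) with hK
  have hK1 : (k : ℝ) < K := by
    rw [hK]
    have : 0 < 2 / ε := by positivity
    nlinarith
  have hK0 : 0 < K := hk0.trans hK1
  refine ⟨⌈K ^ (1 / ε)⌉₊ + 1, fun N hN q hq hqN c hc => ?_⟩
  have hN1 : K ^ (1 / ε) ≤ N := by
    refine (Nat.le_ceil _).trans ?_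
    exact_mod_cast (by omega : ⌈K ^ (1 / ε)⌉₊ ≤ N)
  have hNpos : 1 ≤ N := by omega
  have hNR : (1 : ℝ) ≤ N := by exact_mod_cast hNpos
  have hN0 : (0 : ℝ) < N := by linarith
  have hNε : K ≤ (N : ℝ) ^ ε := by
    calc K = (K ^ (1 / ε)) ^ ε := by
          rw [← Real.rpow_mul hK0.le, one_div, inv_mul_cancel₀ hε.ne', Real.rpow_one]
      _ ≤ (N : ℝ) ^ ε := Real.rpow_le_rpow (by positivity) hN1 hε.le
  have hq0 : (0 : ℝ) < q := by exact_mod_cast hq.pos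
  have hq1 : (1 : ℝ) ≤ q := by exact_mod_cast hq.one_lt.le
  haveI : Fact q.Prime := ⟨hq⟩
  set m : ℝ := min (q : ℝ) (N : ℝ) with hm
  have hm0 : 0 < m := lt_min hq0 hN0
  have hmax : max (1 / (q : ℝ)) (1 / (N : ℝ)) = m⁻¹ := by
    rw [hm]
    rcases le_total (q : ℝ) (N : ℝ) with h | h
    · rw [min_eq_left h, max_eq_left (one_div_le_one_div_of_le hq0 h), one_div]
    · rw [min_eq_right h, max_eq_right (one_div_le_one_div_of_le hN0 h), one_div]
  rw [hmax]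
  set V : ℝ := (N : ℝ) ^ (1 + ε) * m⁻¹ ^ (η) with hV
  have hV0 : 0 < V := by positivity
  have hV2 : V ^ 2 = (N : ℝ) ^ (2 + 2 * ε) * m ^ (-(2 * η)) := by
    rw [hV, mul_pow, ← Real.rpow_natCast, ← Real.rpow_mul hN0.le, ← Real.rpow_natCast,
      ← Real.rpow_mul (by positivity), Real.inv_rpow hm0.le, ← Real.rpow_neg hm0.le]
    congr 2
    · push_cast; ring
    · push_cast; ring
  have hNN : (N : ℝ) ^ (2 + 2 * ε) = (N : ℝ) ^ 2 * (N : ℝ) ^ (2 * ε) := by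
    rw [Real.rpow_add hN0]
    norm_cast
  have hres : 2 * (N : ℝ) ^ 2 / V ^ 2 = 2 * m ^ (2 * η) / (N : ℝ) ^ (2 * ε) := by
    rw [hV2, hNN, Real.rpow_neg hm0.le]
    field_simp
  by_cases hqk : q ∣ k
  · -- no exceptions
    have hqk' : (q : ℝ) ≤ k := by exact_mod_cast Nat.le_of_dvd (by omega) hqk
    have h1 : (N : ℝ) < V := by
      have h2 : m ^ (η) ≤ k := by
        have h3 : m ≤ k := (min_le_left _ _).trans hqk'
        calc m ^ (η) ≤ (k : ℝ) ^ (η) :=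
              Real.rpow_le_rpow hm0.le h3 (by positivity)
          _ ≤ (k : ℝ) ^ (1 : ℝ) := Real.rpow_le_rpow_of_exponent_le (by linarith) (by linarith)
          _ = k := Real.rpow_one _
      rw [hV, Real.rpow_add hN0, Real.rpow_one, Real.inv_rpow hm0.le, mul_assoc]
      have h4 : 1 < (N : ℝ) ^ ε * (m ^ (η))⁻¹ := by
        rw [← div_eq_mul_inv, one_lt_div (by positivity)]
        exact h2.trans_lt (hK1.trans_le hNε)
      calc (N : ℝ) = N * 1 := (mul_one _).symm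
        _ < N * ((N : ℝ) ^ ε * (m ^ (η))⁻¹) := mul_lt_mul_of_pos_left h4 hN0
    have h2 : {b : ℕ | b < q ∧ ∃ h : ℤ[X], h.natDegree < k ∧ ∃ (ξ : ℝ) (u v : ℕ), v ≤ N ∧
      V < ‖∑ n ∈ Finset.Ioc u v, c n * e ((((b : ℝ) * (n : ℝ) ^ k + ((h.eval (n : ℤ) : ℤ) : ℝ))) / q +
        ξ * n)‖} = ∅ := by
      ext b
      simp only [Set.mem_setOf_eq, Set.mem_empty_iff_false, iff_false]
      rintro ⟨_, h, _, ξ, u, v, hv, h3⟩
      have h4 : ‖∑ n ∈ Finset.Ioc u v, c n * e ((((b : ℝ) * (n : ℝ) ^ k +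
          ((h.eval (n : ℤ) : ℤ) : ℝ))) / q + ξ * n)‖ ≤ N := by
        refine (norm_sum_le _ _).trans ?_
        have h5 : ∀ n ∈ Finset.Ioc u v, ‖c n * e ((((b : ℝ) * (n : ℝ) ^ k +
            ((h.eval (n : ℤ) : ℤ) : ℝ))) / q + ξ * n)‖ ≤ 1 := by
          intro n _
          rw [norm_mul, norm_e, mul_one]
          exact hc n
        refine (sum_le_sum h5).trans ?_
        rw [sum_const, Nat.card_Ioc, nsmul_eq_mul, mul_one]
        exact_mod_cast (by omega : v - u ≤ N)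
      linarith
    rw [h2, Set.ncard_empty, Nat.cast_zero]
    positivity
  · have hlog0 : 0 ≤ Real.log N := Real.log_nonneg hNR
    have hlog : 2 * (k : ℝ) * (3 + 2 * Real.log N) ≤ (N : ℝ) ^ (2 * ε) := by
      have h1 : Real.log N ≤ (N : ℝ) ^ ε / ε := Real.log_le_rpow_div hN0.le hε
      have h2 : (1 : ℝ) ≤ (N : ℝ) ^ ε := Real.one_le_rpow hNR hε.le
      have h3 : 3 + 2 * Real.log N ≤ (3 + 2 / ε) * (N : ℝ) ^ ε := by
        have h4 : 2 * ((N : ℝ) ^ ε / ε) = 2 / ε * (N : ℝ) ^ ε := by ring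
        nlinarith
      calc 2 * (k : ℝ) * (3 + 2 * Real.log N) ≤ 2 * k * ((3 + 2 / ε) * (N : ℝ) ^ ε) :=
            mul_le_mul_of_nonneg_left h3 (by positivity)
        _ = K * (N : ℝ) ^ ε := by rw [hK]; ring
        _ ≤ (N : ℝ) ^ ε * (N : ℝ) ^ ε := mul_le_mul_of_nonneg_right hNε (by positivity)
        _ = (N : ℝ) ^ (2 * ε) := by rw [← Real.rpow_add hN0]; congr 1; ring
    have hk1 : ((k - 1 : ℕ) : ℝ) ≤ k := by exact_mod_cast Nat.sub_le k 1
    have hsq : √(q : ℝ) / q = (q : ℝ) ^ (-(1 / 2) : ℝ) := by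
      rw [Real.sqrt_eq_rpow, Real.rpow_neg hq0.le, div_eq_iff hq0.ne', ← Real.rpow_neg hq0.le]
      nth_rewrite 3 [← Real.rpow_one (q : ℝ)]
      rw [← Real.rpow_add hq0]
      norm_num
    have hcond : 2 * N * Gam k q N ≤ V ^ 2 := by
      have hG : 2 * N * Gam k q N = 2 * ((k - 1 : ℕ) : ℝ) * (N * (q : ℝ) ^ (-(1 / 2) : ℝ) *
          (2 * N + q * (1 + Real.log q))) := by
        unfold Gam
        rw [mul_div_assoc, hsq]
        ring
      rw [hG, hV2, hNN]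
      rcases le_total (q : ℝ) (N : ℝ) with h | h
      · rw [hm, min_eq_left h]
        have h1 : 2 * (N : ℝ) + q * (1 + Real.log q) ≤ N * (3 + 2 * Real.log N) := by
          have h2 : Real.log q ≤ Real.log N := Real.log_le_log hq0 h
          have h3 : 0 ≤ Real.log q := Real.log_nonneg hq1
          nlinarith
        have h4 : (q : ℝ) ^ (-(1 / 2) : ℝ) ≤ (q : ℝ) ^ (-(2 * η)) := by
          apply Real.rpow_le_rpow_of_exponent_le hq1
          linarith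
        calc 2 * ((k - 1 : ℕ) : ℝ) * (N * (q : ℝ) ^ (-(1 / 2) : ℝ) * (2 * N + q * (1 + Real.log q))) ≤
              2 * k * (N * (q : ℝ) ^ (-(2 * η)) * (N * (3 + 2 * Real.log N))) := by
              gcongr
          _ = (N : ℝ) ^ 2 * (q : ℝ) ^ (-(2 * η)) * (2 * k * (3 + 2 * Real.log N)) := by ring
          _ ≤ (N : ℝ) ^ 2 * (q : ℝ) ^ (-(2 * η)) * (N : ℝ) ^ (2 * ε) :=
              mul_le_mul_of_nonneg_left hlog (by positivity)
          _ = _ := by ring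
      · rw [hm, min_eq_right h]
        have hlq : Real.log q ≤ 2 * Real.log N := by
          have h2 : Real.log q ≤ Real.log ((N : ℝ) ^ (2 - 4 * η)) := Real.log_le_log hq0 hqN
          rw [Real.log_rpow hN0] at h2
          have h3 : 0 ≤ 4 * η := by positivity
          nlinarith
        have h1 : 2 * (N : ℝ) + q * (1 + Real.log q) ≤ q * (3 + 2 * Real.log N) := by
          nlinarith
        have h5 : (q : ℝ) ^ (-(1 / 2) : ℝ) * q ≤ (N : ℝ) ^ (1 - 2 * η) := by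
          have h6 : (q : ℝ) ^ (-(1 / 2) : ℝ) * q = (q : ℝ) ^ (1 / 2 : ℝ) := by
            nth_rewrite 2 [← Real.rpow_one (q : ℝ)]
            rw [← Real.rpow_add hq0]
            norm_num
          rw [h6]
          calc (q : ℝ) ^ (1 / 2 : ℝ) ≤ ((N : ℝ) ^ (2 - 4 * η)) ^ (1 / 2 : ℝ) :=
                Real.rpow_le_rpow hq0.le hqN (by norm_num)
            _ = _ := by
              rw [← Real.rpow_mul hN0.le]
              congr 1
              ring
        calc 2 * ((k - 1 : ℕ) : ℝ) * (N * (q : ℝ) ^ (-(1 / 2) : ℝ) * (2 * N + q * (1 + Real.log q))) ≤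
              2 * k * (N * (q : ℝ) ^ (-(1 / 2) : ℝ) * (q * (3 + 2 * Real.log N))) := by
              gcongr
          _ = N * ((q : ℝ) ^ (-(1 / 2) : ℝ) * q) * (2 * k * (3 + 2 * Real.log N)) := by ring
          _ ≤ N * (N : ℝ) ^ (1 - 2 * η) * (N : ℝ) ^ (2 * ε) := by
              gcongr
          _ = (N : ℝ) ^ 2 * (N : ℝ) ^ (2 * ε) * (N : ℝ) ^ (-(2 * η)) := by
              have h7 : (N : ℝ) ^ (1 - 2 * η) = N * (N : ℝ) ^ (-(2 * η)) := by
                rw [sub_eq_add_neg, Real.rpow_add hN0, Real.rpow_one]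
              rw [h7]
              ring
    rw [← hres]
    refine le_trans ?_ (large_values (p := q) (by omega) hqk c hc hV0 hcond)
    have hfin : {b : ℕ | b < q ∧ ∃ h : ℤ[X], h.natDegree < k ∧ ∃ (ξ : ℝ) (u v : ℕ), v ≤ N ∧
      V ≤ ‖∑ n ∈ Finset.Ioc u v, c n * e ((((b : ℝ) * (n : ℝ) ^ k + ((h.eval (n : ℤ) : ℤ) : ℝ))) / q +
        ξ * n)‖}.Finite := (Set.finite_Iio q).subset fun b hb => hb.1
    refine Nat.cast_le.2 (Set.ncard_le_ncard ?_ hfin)
    rintro b ⟨hb, h, hh, ξ, u, v, hv, h3⟩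
    exact ⟨hb, h, hh, ξ, u, v, hv, h3.le⟩

end Pool.Agent.Y951.MW
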