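import Pool.Agent.Y951.MW.Comp

/-!
# Large values by duality (helper951)
-/

set_option autoImplicit false

namespace Pool.Agent.Y951.MW

open Finset Real
open Pool.Agent.Y933.KD

/-- a unimodular-or-zero factor turning a number into its modulus -/
lemma exists_rot (z : ℂ) : ∃ w : ℂ, ‖w‖ ≤ 1 ∧ w * z = (‖z‖ : ℂ) := by
  by_cases hz : z = 0
  · exact ⟨0, by simp, by simp [hz]⟩
  · have h1 : (‖z‖ : ℂ) ≠ 0 := by exact_mod_cast (norm_ne_zero_iff.2 hz)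
    refine ⟨(starRingEnd ℂ) z / ‖z‖, ?_, ?_⟩
    · rw [norm_div, Complex.norm_real, norm_norm, RCLike.norm_conj, div_self]
      exact norm_ne_zero_iff.2 hz
    · have h2 : (starRingEnd ℂ) z * z = (‖z‖ : ℂ) ^ 2 := by
        rw [mul_comm, Complex.mul_conj, Complex.normSq_eq_norm_sq]
        push_cast
        rfl
      rw [div_mul_eq_mul_div, h2]
      field_simp

/-- the duality inequality -/
theorem duality {ι : Type*} (B : Finset ι) (N : ℕ) (c : ℕ → ℂ) (hc : ∀ n, ‖c n‖ ≤ 1)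
    (f : ι → ℕ → ℂ) {V Γ : ℝ} (hV0 : 0 ≤ V) (hΓ : 0 ≤ Γ)
    (hV : ∀ b ∈ B, V ≤ ‖∑ n ∈ Ioc 0 N, c n * f b n‖)
    (hd : ∀ b ∈ B, ‖∑ n ∈ Ioc 0 N, f b n * (starRingEnd ℂ) (f b n)‖ ≤ N)
    (ho : ∀ b ∈ B, ∀ b' ∈ B, b ≠ b' → ‖∑ n ∈ Ioc 0 N, f b n * (starRingEnd ℂ) (f b' n)‖ ≤ Γ) :
    ((B.card : ℝ) * V) ^ 2 ≤ N * (B.card * N + (B.card : ℝ) ^ 2 * Γ) := by
  classical
  choose w hw1 hw2 using fun b : ι => exists_rot (∑ n ∈ Ioc 0 N, c n * f b n)
  have h1 : (B.card : ℝ) * V ≤ ∑ b ∈ B, ‖∑ n ∈ Ioc 0 N, c n * f b n‖ := by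
    rw [← nsmul_eq_mul, ← sum_const]
    exact sum_le_sum hV
  have h2 : ((∑ b ∈ B, ‖∑ n ∈ Ioc 0 N, c n * f b n‖ : ℝ) : ℂ) =
      ∑ n ∈ Ioc 0 N, c n * ∑ b ∈ B, w b * f b n := by
    push_cast
    rw [sum_congr rfl fun b _ => (hw2 b).symm]
    simp only [mul_sum]
    rw [sum_comm]
    refine sum_congr rfl fun n _ => sum_congr rfl fun b _ => ?_
    ring
  have h3 : ∑ b ∈ B, ‖∑ n ∈ Ioc 0 N, c n * f b n‖ ≤
      ∑ n ∈ Ioc 0 N, ‖∑ b ∈ B, w b * f b n‖ := by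
    have h4 : ∑ b ∈ B, ‖∑ n ∈ Ioc 0 N, c n * f b n‖ =
        ‖((∑ b ∈ B, ‖∑ n ∈ Ioc 0 N, c n * f b n‖ : ℝ) : ℂ)‖ := by
      rw [Complex.norm_real, Real.norm_of_nonneg (sum_nonneg fun b _ => norm_nonneg _)]
    rw [h4, h2]
    refine (norm_sum_le _ _).trans (sum_le_sum fun n _ => ?_)
    rw [norm_mul]
    calc ‖c n‖ * ‖∑ b ∈ B, w b * f b n‖ ≤ 1 * ‖∑ b ∈ B, w b * f b n‖ :=
          mul_le_mul_of_nonneg_right (hc n) (norm_nonneg _)
      _ = _ := one_mul _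
  have h4 : (∑ n ∈ Ioc 0 N, ‖∑ b ∈ B, w b * f b n‖) ^ 2 ≤
      N * ∑ n ∈ Ioc 0 N, ‖∑ b ∈ B, w b * f b n‖ ^ 2 := by
    have h5 := sq_sum_le_card_mul_sum_sq (s := Ioc 0 N) (f := fun n => ‖∑ b ∈ B, w b * f b n‖)
    rw [Nat.card_Ioc, Nat.sub_zero] at h5
    exact h5
  have h5 : ((∑ n ∈ Ioc 0 N, ‖∑ b ∈ B, w b * f b n‖ ^ 2 : ℝ) : ℂ) =
      ∑ b ∈ B, ∑ b' ∈ B, w b * (starRingEnd ℂ) (w b') *
        ∑ n ∈ Ioc 0 N, f b n * (starRingEnd ℂ) (f b' n) := by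
    push_cast
    have h6 : ∀ n, (‖∑ b ∈ B, w b * f b n‖ : ℂ) ^ 2 =
        ∑ b ∈ B, ∑ b' ∈ B, w b * (starRingEnd ℂ) (w b') * (f b n * (starRingEnd ℂ) (f b' n)) := by
      intro n
      have h7 : (‖∑ b ∈ B, w b * f b n‖ : ℂ) ^ 2 =
          (∑ b ∈ B, w b * f b n) * (starRingEnd ℂ) (∑ b ∈ B, w b * f b n) := by
        rw [Complex.mul_conj, Complex.normSq_eq_norm_sq]
        push_cast
        rfl
      rw [h7, map_sum, sum_mul_sum]
      refine sum_congr rfl fun b _ => sum_congr rfl fun b' _ => ?_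
      rw [map_mul]
      ring
    rw [sum_congr rfl fun n _ => h6 n, sum_comm]
    refine sum_congr rfl fun b _ => ?_
    rw [sum_comm]
    refine sum_congr rfl fun b' _ => ?_
    rw [mul_sum]
  have h6 : ∑ n ∈ Ioc 0 N, ‖∑ b ∈ B, w b * f b n‖ ^ 2 ≤ B.card * N + (B.card : ℝ) ^ 2 * Γ := by
    have h7 : ∑ n ∈ Ioc 0 N, ‖∑ b ∈ B, w b * f b n‖ ^ 2 =
        ‖((∑ n ∈ Ioc 0 N, ‖∑ b ∈ B, w b * f b n‖ ^ 2 : ℝ) : ℂ)‖ := by
      rw [Complex.norm_real, Real.norm_of_nonneg (sum_nonneg fun b _ => sq_nonneg _)]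
    rw [h7, h5]
    have h8 : ∀ b ∈ B, ‖∑ b' ∈ B, w b * (starRingEnd ℂ) (w b') *
        ∑ n ∈ Ioc 0 N, f b n * (starRingEnd ℂ) (f b' n)‖ ≤ N + B.card * Γ := by
      intro b hb
      rw [← add_sum_erase _ _ hb]
      refine (norm_add_le _ _).trans (add_le_add ?_ ?_)
      · rw [norm_mul, norm_mul, RCLike.norm_conj]
        calc ‖w b‖ * ‖w b‖ * ‖∑ n ∈ Ioc 0 N, f b n * (starRingEnd ℂ) (f b n)‖ ≤ 1 * 1 * N := by
              gcongr
              · exact hw1 b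
              · exact hw1 b
              · exact hd b hb
          _ = N := by ring
      · refine (norm_sum_le _ _).trans ?_
        have h9 : ∀ b' ∈ B.erase b, ‖w b * (starRingEnd ℂ) (w b') *
            ∑ n ∈ Ioc 0 N, f b n * (starRingEnd ℂ) (f b' n)‖ ≤ Γ := by
          intro b' hb'
          obtain ⟨hne, hb'B⟩ := mem_erase.1 hb'
          rw [norm_mul, norm_mul, RCLike.norm_conj]
          calc ‖w b‖ * ‖w b'‖ * ‖∑ n ∈ Ioc 0 N, f b n * (starRingEnd ℂ) (f b' n)‖ ≤ 1 * 1 * Γ := by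
                gcongr
                · exact hw1 b
                · exact hw1 b'
                · exact ho b hb b' hb'B (Ne.symm hne)
            _ = Γ := by ring
        refine (sum_le_sum h9).trans ?_
        rw [sum_const, nsmul_eq_mul]
        exact mul_le_mul_of_nonneg_right (by exact_mod_cast card_le_card (erase_subset _ _)) hΓ
    refine (norm_sum_le _ _).trans ((sum_le_sum h8).trans ?_)
    rw [sum_const, nsmul_eq_mul]
    exact le_of_eq (by ring)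
  have h7 : 0 ≤ (B.card : ℝ) * V := by positivity
  calc ((B.card : ℝ) * V) ^ 2 ≤ (∑ n ∈ Ioc 0 N, ‖∑ b ∈ B, w b * f b n‖) ^ 2 :=
        pow_le_pow_left₀ h7 (h1.trans h3) 2
    _ ≤ N * ∑ n ∈ Ioc 0 N, ‖∑ b ∈ B, w b * f b n‖ ^ 2 := h4
    _ ≤ _ := mul_le_mul_of_nonneg_left h6 (Nat.cast_nonneg N)

section

variable {p : ℕ} [Fact p.Prime]

lemma norm_psi (x : ZMod p) : ‖(ZMod.stdAddChar x : ℂ)‖ = 1 := by
  rw [ZMod.stdAddChar_apply]
  exact Circle.norm_coe _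

lemma conj_psi (x : ZMod p) : (starRingEnd ℂ) (ZMod.stdAddChar x : ℂ) = ZMod.stdAddChar (-x) := by
  have h1 : (ZMod.stdAddChar x : ℂ) * ZMod.stdAddChar (-x) = 1 := by
    rw [← AddChar.map_add_eq_mul, add_neg_cancel, AddChar.map_zero_eq_one]
  have h2 : (ZMod.stdAddChar x : ℂ) * (starRingEnd ℂ) (ZMod.stdAddChar x : ℂ) = 1 := by
    rw [Complex.mul_conj, Complex.normSq_eq_norm_sq, norm_psi]
    norm_num
  have h3 : (ZMod.stdAddChar x : ℂ) ≠ 0 := by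
    intro h
    rw [h, zero_mul] at h1
    exact zero_ne_one h1
  exact mul_left_cancel₀ h3 (h2.trans h1.symm)

lemma conj_e (x : ℝ) : (starRingEnd ℂ) (e x) = e (-x) := by
  have h1 : e x * e (-x) = 1 := by
    rw [← e_add, add_neg_cancel]
    unfold e
    simp
  have h2 : e x * (starRingEnd ℂ) (e x) = 1 := by
    rw [Complex.mul_conj, Complex.normSq_eq_norm_sq, norm_e]
    norm_num
  have h3 : e x ≠ 0 := by
    intro h
    rw [h, zero_mul] at h1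
    exact zero_ne_one h1
  exact mul_left_cancel₀ h3 (h2.trans h1.symm)

open Polynomial in
/-- **large values** -/
theorem large {N : ℕ} {Γ : ℝ} (hΓ : 0 ≤ Γ) (F : ℕ → (ZMod p)[X]) (B : Finset ℕ)
    (hinc : ∀ b ∈ B, ∀ b' ∈ B, b ≠ b' → ∀ (η : ℝ) (u v : ℕ), v ≤ N →
      ‖∑ n ∈ Finset.Ioc u v, (ZMod.stdAddChar ((F b - F b').eval (n : ZMod p)) : ℂ) * e (n * η)‖ ≤ Γ)
    (c : ℕ → ℂ) (hc : ∀ n, ‖c n‖ ≤ 1)
    (ξ : ℕ → ℝ) (u v : ℕ → ℕ) (hv : ∀ b ∈ B, v b ≤ N) {V : ℝ} (hV0 : 0 ≤ V)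
    (hV : ∀ b ∈ B, V ≤ ‖∑ n ∈ Finset.Ioc (u b) (v b),
      c n * ((ZMod.stdAddChar ((F b).eval (n : ZMod p)) : ℂ) * e (n * ξ b))‖) :
    ((B.card : ℝ) * V) ^ 2 ≤ N * (B.card * N + (B.card : ℝ) ^ 2 * Γ) := by
  classical
  set f : ℕ → ℕ → ℂ := fun b n => if n ∈ Finset.Ioc (u b) (v b) then
    (ZMod.stdAddChar ((F b).eval (n : ZMod p)) : ℂ) * e (n * ξ b) else 0 with hf
  have hsub : ∀ b ∈ B, Finset.Ioc (u b) (v b) ⊆ Finset.Ioc 0 N := by
    intro b hb n hn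
    have := hv b hb
    rw [Finset.mem_Ioc] at hn ⊢
    omega
  refine duality B N c hc f hV0 hΓ ?_ ?_ ?_
  · intro b hb
    have h1 : ∑ n ∈ Finset.Ioc 0 N, c n * f b n = ∑ n ∈ Finset.Ioc (u b) (v b),
        c n * ((ZMod.stdAddChar ((F b).eval (n : ZMod p)) : ℂ) * e (n * ξ b)) := by
      rw [hf]
      simp only [mul_ite, mul_zero]
      rw [← sum_filter, filter_mem_eq_inter, inter_eq_right.2 (hsub b hb)]
    rw [h1]
    exact hV b hb
  · intro b hb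
    refine (norm_sum_le _ _).trans ?_
    have h1 : ∀ n ∈ Finset.Ioc 0 N, ‖f b n * (starRingEnd ℂ) (f b n)‖ ≤ 1 := by
      intro n _
      rw [norm_mul, RCLike.norm_conj]
      have h2 : ‖f b n‖ ≤ 1 := by
        rw [hf]
        simp only
        split_ifs
        · rw [norm_mul, norm_psi, norm_e, mul_one]
        · rw [norm_zero]
          exact zero_le_one
      exact mul_le_one₀ h2 (norm_nonneg _) h2
    refine (sum_le_sum h1).trans ?_
    rw [sum_const, Nat.card_Ioc, Nat.sub_zero, nsmul_eq_mul, mul_one]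
  · intro b hb b' hb' hne
    have h1 : ∑ n ∈ Finset.Ioc 0 N, f b n * (starRingEnd ℂ) (f b' n) =
        ∑ n ∈ Finset.Ioc (max (u b) (u b')) (min (v b) (v b')),
          (ZMod.stdAddChar ((F b - F b').eval (n : ZMod p)) : ℂ) * e (n * (ξ b - ξ b')) := by
      have h2 : ∀ n, f b n * (starRingEnd ℂ) (f b' n) =
          if n ∈ Finset.Ioc (max (u b) (u b')) (min (v b) (v b')) then
            (ZMod.stdAddChar ((F b - F b').eval (n : ZMod p)) : ℂ) * e (n * (ξ b - ξ b'))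
          else 0 := by
        intro n
        rw [hf]
        simp only
        by_cases h3 : n ∈ Finset.Ioc (u b) (v b)
        · by_cases h4 : n ∈ Finset.Ioc (u b') (v b')
          · rw [if_pos h3, if_pos h4, if_pos, map_mul (starRingEnd ℂ), conj_psi, conj_e,
              mul_mul_mul_comm, ← AddChar.map_add_eq_mul, ← e_add, eval_sub]
            · congr 2 <;> ring
            · rw [Finset.mem_Ioc] at h3 h4 ⊢
              omega
          · rw [if_neg h4, map_zero, mul_zero, if_neg]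
            intro h5
            rw [Finset.mem_Ioc] at h4 h5
            omega
        · rw [if_neg h3, zero_mul, if_neg]
          intro h5
          rw [Finset.mem_Ioc] at h3 h5
          omega
      rw [sum_congr rfl fun n _ => h2 n, ← sum_filter, filter_mem_eq_inter, inter_eq_right.2]
      intro n hn
      have := hv b hb
      rw [Finset.mem_Ioc] at hn ⊢
      omega
    rw [h1]
    exact hinc b hb b' hb' hne _ _ _ ((min_le_left _ _).trans (hv b hb))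

/-- from the quadratic inequality to the count -/
lemma count {R N V Γ : ℝ} (hR : 0 ≤ R) (hV : 0 < V) (h2 : 2 * N * Γ ≤ V ^ 2)
    (h : (R * V) ^ 2 ≤ N * (R * N + R ^ 2 * Γ)) : R ≤ 2 * N ^ 2 / V ^ 2 := by
  rw [le_div_iff₀ (by positivity)]
  rcases hR.eq_or_lt with h0 | h0
  · rw [← h0]
    nlinarith [sq_nonneg N]
  · have h3 : R ^ 2 * (2 * N * Γ) ≤ R ^ 2 * V ^ 2 := mul_le_mul_of_nonneg_left h2 (sq_nonneg R)
    have h4 : R * (R * V ^ 2) ≤ R * (2 * N ^ 2) := by nlinarith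
    exact le_of_mul_le_mul_left h4 h0

end

end Pool.Agent.Y951.MW
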