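import Pool.Agent.Y951.MW.Crt
import Pool.Agent.Y951.MW.Final

/-!
# Large values over many prime moduli and all polynomials (helper951)
-/

set_option autoImplicit false

namespace Pool.Agent.Y951.MW

open Finset Real Polynomial
open Pool.Agent.Y933.KD

/-- **large values**, general phases -/
theorem largeR {ι : Type*} {N : ℕ} {Γ : ℝ} (hΓ : 0 ≤ Γ) (φ : ι → ℕ → ℝ) (B : Finset ι)
    (hinc : ∀ b ∈ B, ∀ b' ∈ B, b ≠ b' → ∀ (η : ℝ) (u v : ℕ), v ≤ N →
      ‖∑ n ∈ Finset.Ioc u v, e (φ b n - φ b' n + n * η)‖ ≤ Γ)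
    (c : ℕ → ℂ) (hc : ∀ n, ‖c n‖ ≤ 1)
    (ξ : ι → ℝ) (u v : ι → ℕ) (hv : ∀ b ∈ B, v b ≤ N) {V : ℝ} (hV0 : 0 ≤ V)
    (hV : ∀ b ∈ B, V ≤ ‖∑ n ∈ Finset.Ioc (u b) (v b), c n * e (φ b n + ξ b * n)‖) :
    ((B.card : ℝ) * V) ^ 2 ≤ N * (B.card * N + (B.card : ℝ) ^ 2 * Γ) := by
  classical
  set f : ι → ℕ → ℂ := fun b n => if n ∈ Finset.Ioc (u b) (v b) then
    e (φ b n + ξ b * n) else 0 with hf
  have hsub : ∀ b ∈ B, Finset.Ioc (u b) (v b) ⊆ Finset.Ioc 0 N := by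
    intro b hb n hn
    have := hv b hb
    rw [Finset.mem_Ioc] at hn ⊢
    omega
  refine duality B N c hc f hV0 hΓ ?_ ?_ ?_
  · intro b hb
    have h1 : ∑ n ∈ Finset.Ioc 0 N, c n * f b n = ∑ n ∈ Finset.Ioc (u b) (v b),
        c n * e (φ b n + ξ b * n) := by
      rw [hf]
      simp only [mul_ite, mul_zero]
      rw [← sum_filter, filter_mem_eq_inter, inter_eq_right.2 (hsub b hb)]
    rw [h1]
    exact hV b hb
  · intro b hb
    refine (norm_sum_le _ _).trans ?_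
    have h1 : ∀ n ∈ Finset.Ioc 0 N, ‖f b n * (starRingEnd ℂ) (f b n)‖ ≤ 1 := by
      intro n _
      rw [norm_mul, RCLike.norm_conj]
      have h2 : ‖f b n‖ ≤ 1 := by
        rw [hf]
        simp only
        split_ifs
        · rw [norm_e]
        · rw [norm_zero]
          exact zero_le_one
      exact mul_le_one₀ h2 (norm_nonneg _) h2
    refine (sum_le_sum h1).trans ?_
    rw [sum_const, Nat.card_Ioc, Nat.sub_zero, nsmul_eq_mul, mul_one]
  · intro b hb b' hb' hne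
    have h1 : ∑ n ∈ Finset.Ioc 0 N, f b n * (starRingEnd ℂ) (f b' n) =
        ∑ n ∈ Finset.Ioc (max (u b) (u b')) (min (v b) (v b')),
          e (φ b n - φ b' n + n * (ξ b - ξ b')) := by
      have h2 : ∀ n, f b n * (starRingEnd ℂ) (f b' n) =
          if n ∈ Finset.Ioc (max (u b) (u b')) (min (v b) (v b')) then
            e (φ b n - φ b' n + n * (ξ b - ξ b'))
          else 0 := by
        intro n
        rw [hf]
        simp only
        by_cases h3 : n ∈ Finset.Ioc (u b) (v b)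
        · by_cases h4 : n ∈ Finset.Ioc (u b') (v b')
          · rw [if_pos h3, if_pos h4, if_pos, conj_e, ← e_add]
            · congr 1; ring
            · rw [Finset.mem_Ioc] at h3 h4 ⊢
              omega
          · rw [if_neg h4, map_zero, mul_zero, if_neg]
            intro h5
            rw [Finset.mem_Ioc] at h4 h5
            omega
        · rw [if_neg h3, zero_mul, if_neg]
          intro h5
          rw [Finset.mem_Ioc] at h3 h5
          omega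
      rw [sum_congr rfl fun n _ => h2 n, ← sum_filter, filter_mem_eq_inter, inter_eq_right.2]
      intro n hn
      have := hv b hb
      rw [Finset.mem_Ioc] at hn ⊢
      omega
    rw [h1]
    exact hinc b hb b' hb' hne _ _ _ ((min_le_left _ _).trans (hv b hb))

/-- the values of an integer polynomial over `q` as values of the standard character -/
lemma psi_poly {q : ℕ} [NeZero q] (f : ℤ[X]) (n : ℕ) :
    (ZMod.stdAddChar ((f.map (Int.castRingHom (ZMod q))).eval (n : ZMod q)) : ℂ) =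
      e (((f.eval (n : ℤ) : ℤ) : ℝ) / q) := by
  have h1 : (f.map (Int.castRingHom (ZMod q))).eval (n : ZMod q) = ((f.eval (n : ℤ) : ℤ) : ZMod q) := by
    have h2 : (n : ZMod q) = (Int.castRingHom (ZMod q)) (n : ℤ) := by simp
    rw [h2, eval_map, eval₂_at_apply]
    rfl
  rw [h1, psi_intM]

/-- one modulus -/
lemma one_mod {q k N : ℕ} (hq : q.Prime) (f : ℤ[X])
    (h2 : 2 ≤ (f.map (Int.castRingHom (ZMod q))).natDegree)
    (h3 : ¬ q ∣ (f.map (Int.castRingHom (ZMod q))).natDegree)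
    (hk : (f.map (Int.castRingHom (ZMod q))).natDegree ≤ k) (η : ℝ) {u v : ℕ} (hv : v ≤ N) :
    ‖∑ n ∈ Finset.Ioc u v, e (((f.eval (n : ℤ) : ℤ) : ℝ) / q + n * η)‖ ≤ Gam k q N := by
  haveI : Fact q.Prime := ⟨hq⟩
  haveI : NeZero q := ⟨hq.ne_zero⟩
  have h1 := incompleteM (M := q) (u := u)
      (g := fun r => (ZMod.stdAddChar ((f.map (Int.castRingHom (ZMod q))).eval r) : ℂ))
      (Γ := ((k - 1 : ℕ) : ℝ) * √q) (by positivity) (by
        intro a
        refine (complete h2 h3 a).trans ?_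
        have : (((f.map (Int.castRingHom (ZMod q))).natDegree - 1 : ℕ) : ℝ) ≤ ((k - 1 : ℕ) : ℝ) := by
          exact_mod_cast Nat.sub_le_sub_right hk 1
        gcongr) η hv
  refine le_trans (le_of_eq ?_) h1
  congr 1
  refine sum_congr rfl fun n _ => ?_
  rw [psi_poly, ← e_add]

/-- the bound for two moduli -/
noncomputable def Gam2 (k q q' N : ℕ) : ℝ :=
  (((k - 1 : ℕ) : ℝ) * √q) * (((k - 1 : ℕ) : ℝ) * √q') / ((q * q' : ℕ) : ℝ) *
    (2 * N + ((q * q' : ℕ) : ℝ) * (1 + Real.log ((q * q' : ℕ) : ℝ)))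

/-- two moduli -/
lemma two_mod {q q' k N : ℕ} (hq : q.Prime) (hq' : q'.Prime) (hne : q ≠ q') (f f' : ℤ[X])
    (h2 : 2 ≤ (f.map (Int.castRingHom (ZMod q))).natDegree)
    (h3 : ¬ q ∣ (f.map (Int.castRingHom (ZMod q))).natDegree)
    (hk : (f.map (Int.castRingHom (ZMod q))).natDegree ≤ k)
    (h2' : 2 ≤ (f'.map (Int.castRingHom (ZMod q'))).natDegree)
    (h3' : ¬ q' ∣ (f'.map (Int.castRingHom (ZMod q'))).natDegree)
    (hk' : (f'.map (Int.castRingHom (ZMod q'))).natDegree ≤ k) (η : ℝ) {u v : ℕ} (hv : v ≤ N) :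
    ‖∑ n ∈ Finset.Ioc u v, e (((f.eval (n : ℤ) : ℤ) : ℝ) / q + ((f'.eval (n : ℤ) : ℤ) : ℝ) / q' +
      n * η)‖ ≤ Gam2 k q q' N := by
  haveI : Fact q.Prime := ⟨hq⟩
  haveI : NeZero q := ⟨hq.ne_zero⟩
  haveI : Fact q'.Prime := ⟨hq'⟩
  haveI : NeZero q' := ⟨hq'.ne_zero⟩
  have hco : q.Coprime q' := (Nat.coprime_primes hq hq').2 hne
  have h1 := incompleteM (M := q * q') (u := u)
      (g := fun r => (ZMod.stdAddChar ((f.map (Int.castRingHom (ZMod q))).eval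
        (ZMod.chineseRemainder hco r).1) : ℂ) *
        (ZMod.stdAddChar ((f'.map (Int.castRingHom (ZMod q'))).eval
        (ZMod.chineseRemainder hco r).2) : ℂ))
      (Γ := (((k - 1 : ℕ) : ℝ) * √q) * (((k - 1 : ℕ) : ℝ) * √q')) (by positivity) (by
        intro a
        obtain ⟨a1, a2, h4⟩ := crt_sum hco
          (fun x => (ZMod.stdAddChar ((f.map (Int.castRingHom (ZMod q))).eval x) : ℂ))
          (fun x => (ZMod.stdAddChar ((f'.map (Int.castRingHom (ZMod q'))).eval x) : ℂ)) a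
        rw [h4, norm_mul]
        have h5 : (((f.map (Int.castRingHom (ZMod q))).natDegree - 1 : ℕ) : ℝ) ≤
            ((k - 1 : ℕ) : ℝ) := by
          exact_mod_cast Nat.sub_le_sub_right hk 1
        have h5' : (((f'.map (Int.castRingHom (ZMod q'))).natDegree - 1 : ℕ) : ℝ) ≤
            ((k - 1 : ℕ) : ℝ) := by
          exact_mod_cast Nat.sub_le_sub_right hk' 1
        refine mul_le_mul ((complete h2 h3 a1).trans ?_) ((complete h2' h3' a2).trans ?_)
          (norm_nonneg _) (by positivity)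
        · gcongr
        · gcongr) η hv
  unfold Gam2
  refine le_trans (le_of_eq ?_) h1
  congr 1
  refine sum_congr rfl fun n _ => ?_
  have h6 : ZMod.chineseRemainder hco (n : ZMod (q * q')) = ((n : ZMod q), (n : ZMod q')) := by
    rw [map_natCast]
    rfl
  rw [h6]
  simp only
  rw [psi_poly, psi_poly, ← e_add, ← e_add]

/-- normalized pairs of a prime and a polynomial modulo it -/
def Nrm (k Q : ℕ) (s : ℕ × ℤ[X]) : Prop :=
  s.1.Prime ∧ Q < s.1 ∧ s.1 ≤ 2 * Q ∧ s.2 ≠ 0 ∧ s.2.natDegree ≤ k ∧ s.2.coeff 0 = 0 ∧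
    s.2.coeff 1 = 0 ∧ ∀ i, 0 ≤ s.2.coeff i ∧ s.2.coeff i < s.1

/-- degrees of reductions -/
lemma red_deg {q k : ℕ} (hq : q.Prime) (hkq : k < q) (f : ℤ[X]) (hf : f.natDegree ≤ k)
    (h0 : f.coeff 0 = 0) (h1 : f.coeff 1 = 0) (hne : ∃ i, ¬ (q : ℤ) ∣ f.coeff i) :
    2 ≤ (f.map (Int.castRingHom (ZMod q))).natDegree ∧
    ¬ q ∣ (f.map (Int.castRingHom (ZMod q))).natDegree ∧
    (f.map (Int.castRingHom (ZMod q))).natDegree ≤ k := by
  set F := f.map (Int.castRingHom (ZMod q)) with hF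
  have hdk : F.natDegree ≤ k := natDegree_map_le.trans hf
  have hF0 : F ≠ 0 := by
    obtain ⟨i, hi⟩ := hne
    intro h
    apply hi
    have h2 : F.coeff i = 0 := by rw [h, coeff_zero]
    rw [hF, coeff_map] at h2
    exact (ZMod.intCast_zmod_eq_zero_iff_dvd _ _).1 h2
  have h2 : 2 ≤ F.natDegree := by
    by_contra hlt
    have h3 : F.coeff F.natDegree ≠ 0 := leadingCoeff_ne_zero.2 hF0
    apply h3
    rw [hF, coeff_map, ← hF]
    have h4 : F.natDegree = 0 ∨ F.natDegree = 1 := by omega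
    rcases h4 with h4 | h4
    · rw [h4, h0, map_zero]
    · rw [h4, h1, map_zero]
  refine ⟨h2, ?_, hdk⟩
  intro h
  have := Nat.le_of_dvd (by omega) h
  omega

lemma small_not_dvd {q : ℕ} {a : ℤ} (h0 : a ≠ 0) (h1 : -(q : ℤ) < a) (h2 : a < q) :
    ¬ (q : ℤ) ∣ a := by
  intro h
  apply h0
  exact Int.eq_zero_of_abs_lt_dvd h (abs_lt.2 ⟨h1, h2⟩)

/-- the common bound -/
noncomputable def Bd (k Q N : ℕ) : ℝ :=
  ((k : ℝ) - 1) ^ 2 * (2 * N / √(Q : ℝ) + 2 * Q * (1 + 2 * Real.log (2 * Q)))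

lemma Bd_nonneg {k Q N : ℕ} (hQ : 1 ≤ Q) : 0 ≤ Bd k Q N := by
  unfold Bd
  have hQR : (1 : ℝ) ≤ Q := by exact_mod_cast hQ
  have : 0 ≤ Real.log (2 * (Q : ℝ)) := Real.log_nonneg (by linarith)
  positivity

lemma Gam_le {k Q N q : ℕ} (hk : 2 ≤ k) (hQ : 1 ≤ Q) (h1 : Q < q) (h2 : q ≤ 2 * Q) :
    Gam k q N ≤ Bd k Q N := by
  have hQR : (1 : ℝ) ≤ Q := by exact_mod_cast hQ
  have hkR : (2 : ℝ) ≤ k := by exact_mod_cast hk
  have hqR : (Q : ℝ) ≤ q := by exact_mod_cast h1.le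
  have hqR2 : (q : ℝ) ≤ 2 * Q := by exact_mod_cast h2
  have hq0 : (0 : ℝ) < q := by linarith
  have hlog : Real.log q ≤ Real.log (2 * (Q : ℝ)) := Real.log_le_log hq0 hqR2
  have hlog0 : 0 ≤ Real.log q := Real.log_nonneg (by linarith)
  have hs0 : 0 < √(q : ℝ) := Real.sqrt_pos.2 hq0
  have hsQ : 0 < √(Q : ℝ) := Real.sqrt_pos.2 (by linarith)
  have hss : √(q : ℝ) * √(q : ℝ) = q := Real.mul_self_sqrt hq0.le
  have e1 : Gam k q N = ((k : ℝ) - 1) * (2 * N / √(q : ℝ) + √(q : ℝ) * (1 + Real.log q)) := by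
    unfold Gam
    rw [Nat.cast_sub (by omega), Nat.cast_one]
    have : √(q : ℝ) / q = 1 / √(q : ℝ) := by
      rw [div_eq_div_iff hq0.ne' hs0.ne', one_mul, hss]
    calc ((k : ℝ) - 1) * √(q : ℝ) / q * (2 * N + q * (1 + Real.log q)) =
          ((k : ℝ) - 1) * (√(q : ℝ) / q) * (2 * N + q * (1 + Real.log q)) := by ring
      _ = ((k : ℝ) - 1) * (1 / √(q : ℝ)) * (2 * N + √(q : ℝ) * √(q : ℝ) * (1 + Real.log q)) := by
          rw [this, hss]
      _ = _ := by field_simp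
  rw [e1]
  unfold Bd
  have h3 : ((k : ℝ) - 1) ≤ ((k : ℝ) - 1) ^ 2 := by nlinarith
  have h4 : 2 * (N : ℝ) / √(q : ℝ) ≤ 2 * N / √(Q : ℝ) := by
    gcongr
  have h5 : √(q : ℝ) ≤ 2 * Q := by
    have : √(q : ℝ) ≤ q := by
      rw [Real.sqrt_le_left hq0.le]
      nlinarith
    linarith
  have h6 : √(q : ℝ) * (1 + Real.log q) ≤ 2 * Q * (1 + 2 * Real.log (2 * Q)) := by
    apply mul_le_mul h5 (by linarith) (by linarith) (by linarith)
  refine mul_le_mul h3 (add_le_add h4 h6) (by positivity) (by positivity)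

lemma Gam2_le {k Q N q q' : ℕ} (hk : 2 ≤ k) (hQ : 1 ≤ Q) (h1 : Q < q) (h2 : q ≤ 2 * Q)
    (h1' : Q < q') (h2' : q' ≤ 2 * Q) : Gam2 k q q' N ≤ Bd k Q N := by
  have hQR : (1 : ℝ) ≤ Q := by exact_mod_cast hQ
  have hkR : (2 : ℝ) ≤ k := by exact_mod_cast hk
  have hqR : (Q : ℝ) ≤ q := by exact_mod_cast h1.le
  have hqR2 : (q : ℝ) ≤ 2 * Q := by exact_mod_cast h2
  have hqR' : (Q : ℝ) ≤ q' := by exact_mod_cast h1'.le
  have hqR2' : (q' : ℝ) ≤ 2 * Q := by exact_mod_cast h2'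
  have hq0 : (0 : ℝ) < q := by linarith
  have hq0' : (0 : ℝ) < q' := by linarith
  set r : ℝ := √(q : ℝ) * √(q' : ℝ) with hr
  have hrr : r * r = q * q' := by
    rw [hr]
    have := Real.mul_self_sqrt hq0.le
    have := Real.mul_self_sqrt hq0'.le
    nlinarith
  have hr0 : 0 < r := mul_pos (Real.sqrt_pos.2 hq0) (Real.sqrt_pos.2 hq0')
  have hrQ : (Q : ℝ) ≤ r := by
    by_contra hlt
    push Not at hlt
    nlinarith
  have hrQ2 : r ≤ 2 * Q := by
    by_contra hlt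
    push Not at hlt
    nlinarith
  have hlog : Real.log ((q : ℝ) * q') ≤ 2 * Real.log (2 * (Q : ℝ)) := by
    rw [Real.log_mul hq0.ne' hq0'.ne']
    have h5 := Real.log_le_log hq0 hqR2
    have h6 := Real.log_le_log hq0' hqR2'
    linarith
  have hlog0 : 0 ≤ Real.log ((q : ℝ) * q') := Real.log_nonneg (by nlinarith)
  have e1 : Gam2 k q q' N = ((k : ℝ) - 1) ^ 2 * (2 * N / r + r * (1 + Real.log ((q : ℝ) * q'))) := by
    unfold Gam2
    rw [Nat.cast_sub (by omega), Nat.cast_one, Nat.cast_mul]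
    have : ((k : ℝ) - 1) * √(q : ℝ) * (((k : ℝ) - 1) * √(q' : ℝ)) = ((k : ℝ) - 1) ^ 2 * r := by
      rw [hr]; ring
    rw [this, ← hrr]
    field_simp
  rw [e1]
  unfold Bd
  have hsQ : 0 < √(Q : ℝ) := Real.sqrt_pos.2 (by linarith)
  have hsQ2 : √(Q : ℝ) ≤ r := by
    have : √(Q : ℝ) ≤ Q := by
      rw [Real.sqrt_le_left (by linarith)]
      nlinarith
    linarith
  have h4 : 2 * (N : ℝ) / r ≤ 2 * N / √(Q : ℝ) := by
    gcongr
  have h6 : r * (1 + Real.log ((q : ℝ) * q')) ≤ 2 * Q * (1 + 2 * Real.log (2 * Q)) := by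
    apply mul_le_mul hrQ2 (by linarith) (by linarith) (by linarith)
  exact mul_le_mul_of_nonneg_left (add_le_add h4 h6) (by positivity)

/-- **large values over many moduli** -/
theorem many {k Q N : ℕ} (hk : 2 ≤ k) (hkQ : k ≤ Q) (c : ℕ → ℂ) (hc : ∀ n, ‖c n‖ ≤ 1) {V : ℝ}
    (hV : 0 < V) (hV2 : 2 * N * Bd k Q N ≤ V ^ 2) (S : Finset (ℕ × ℤ[X])) (hS : ∀ s ∈ S, Nrm k Q s)
    (hL : ∀ s ∈ S, ∃ (ξ : ℝ) (u v : ℕ), v ≤ N ∧
      V ≤ ‖∑ n ∈ Finset.Ioc u v, c n * e (((s.2.eval (n : ℤ) : ℤ) : ℝ) / s.1 + ξ * n)‖) :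
    (S.card : ℝ) ≤ 2 * N ^ 2 / V ^ 2 := by
  classical
  have hL' : ∀ s : ℕ × ℤ[X], ∃ (ξ : ℝ) (u v : ℕ), s ∈ S → v ≤ N ∧
      V ≤ ‖∑ n ∈ Finset.Ioc u v, c n * e (((s.2.eval (n : ℤ) : ℤ) : ℝ) / s.1 + ξ * n)‖ := by
    intro s
    by_cases hs : s ∈ S
    · obtain ⟨ξ, u, v, h⟩ := hL s hs
      exact ⟨ξ, u, v, fun _ => h⟩
    · exact ⟨0, 0, 0, fun h => absurd h hs⟩
  choose ξ u v hL'' using hL'
  have hQ1 : 1 ≤ Q := by omega
  refine count (Nat.cast_nonneg _) hV hV2 (largeR (Bd_nonneg hQ1)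
    (fun (s : ℕ × ℤ[X]) n => ((s.2.eval (n : ℤ) : ℤ) : ℝ) / s.1) S ?_ c hc ξ u v
    (fun s hs => (hL'' s hs).1) hV.le (fun s hs => (hL'' s hs).2))
  intro s hs s' hs' hne η u v hv
  obtain ⟨hp, hQ, hQ2, hf0, hfd, hc0, hc1, hci⟩ := hS s hs
  obtain ⟨hp', hQ', hQ2', hf0', hfd', hc0', hc1', hci'⟩ := hS s' hs'
  by_cases hqq : s.1 = s'.1
  · -- one modulus
    have hff : s.2 ≠ s'.2 := fun h => hne (Prod.ext hqq h)
    obtain ⟨i, hi⟩ : ∃ i, s.2.coeff i ≠ s'.2.coeff i := by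
      by_contra h
      push Not at h
      exact hff (Polynomial.ext h)
    obtain ⟨g1, g2, g3⟩ := red_deg (k := k) hp (by omega) (s.2 - s'.2)
      ((natDegree_sub_le _ _).trans (max_le hfd hfd'))
      (by rw [coeff_sub, hc0, hc0', sub_zero]) (by rw [coeff_sub, hc1, hc1', sub_zero])
      ⟨i, by
        rw [coeff_sub]
        have h1 := hci i
        have h2 := hci' i
        rw [← hqq] at h2
        exact small_not_dvd (sub_ne_zero.2 hi) (by linarith [h1.1, h2.2]) (by linarith [h1.2, h2.1])⟩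
    have h1 := one_mod (k := k) (N := N) hp (s.2 - s'.2) g1 g2 g3 η (u := u) hv
    refine le_trans (le_of_eq ?_) (h1.trans (Gam_le hk hQ1 hQ hQ2))
    congr 1
    refine sum_congr rfl fun n _ => ?_
    rw [← hqq, eval_sub]
    congr 1
    push_cast
    ring
  · obtain ⟨g1, g2, g3⟩ := red_deg (k := k) hp (by omega) s.2 hfd hc0 hc1 (by
      by_contra h
      push Not at h
      apply hf0
      ext i
      rw [coeff_zero]
      have h1 := hci i
      exact Int.eq_zero_of_abs_lt_dvd (h i) (abs_lt.2 ⟨by linarith [h1.1, hp.pos], h1.2⟩))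
    obtain ⟨g1', g2', g3'⟩ := red_deg (k := k) hp' (by omega) (-s'.2)
      (by rw [natDegree_neg]; exact hfd') (by rw [coeff_neg, hc0', neg_zero])
      (by rw [coeff_neg, hc1', neg_zero]) (by
      by_contra h
      push Not at h
      apply hf0'
      ext i
      rw [coeff_zero]
      have h1 := hci' i
      have h2 := h i
      rw [coeff_neg, dvd_neg] at h2
      exact Int.eq_zero_of_abs_lt_dvd h2 (abs_lt.2 ⟨by linarith [h1.1, hp'.pos], h1.2⟩))
    have h1 := two_mod (k := k) (N := N) hp hp' hqq s.2 (-s'.2) g1 g2 g3 g1' g2' g3' η (u := u) hv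
    refine le_trans (le_of_eq ?_) (h1.trans (Gam2_le hk hQ1 hQ hQ2 hQ' hQ2'))
    congr 1
    refine sum_congr rfl fun n _ => ?_
    rw [eval_neg]
    congr 1
    push_cast
    ring

end Pool.Agent.Y951.MW
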