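import Pool.Agent.Y951.MW.Many

/-!
# Almost all prime moduli (helper951)
-/

set_option autoImplicit false

namespace Pool.Agent.Y951.MW

open Finset Real Polynomial
open Pool.Agent.Y933.KD

/-- **almost all pairs** -/
theorem many_eta {k : ℕ} (hk : 2 ≤ k) {η : ℝ} (hη0 : 0 ≤ η) (hη : η ≤ 1 / 4) {ε : ℝ} (hε : 0 < ε) :
    ∃ N₀ : ℕ, ∀ N : ℕ, N₀ ≤ N → ∀ Q : ℕ, (2 * (Q : ℝ)) ^ (1 + 2 * η) ≤ N →
    ∀ c : ℕ → ℂ, (∀ n, ‖c n‖ ≤ 1) → ∀ S : Finset (ℕ × ℤ[X]), (∀ s ∈ S, Nrm k Q s) →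
    (∀ s ∈ S, ∃ (ξ : ℝ) (u v : ℕ), v ≤ N ∧ (N : ℝ) ^ (1 + ε) / (s.1 : ℝ) ^ η <
      ‖∑ n ∈ Finset.Ioc u v, c n * e (((s.2.eval (n : ℤ) : ℤ) : ℝ) / s.1 + ξ * n)‖) →
    (S.card : ℝ) ≤ 2 * (2 * (Q : ℝ)) ^ (2 * η) / (N : ℝ) ^ (2 * ε) := by
  have hkR : (2 : ℝ) ≤ k := by exact_mod_cast hk
  have hk0 : (0 : ℝ) < k := by linarith
  set K : ℝ := (k : ℝ) ^ 2 * (10 + 4 / ε) with hK
  have hK1 : 2 * (k : ℝ) < K := by
    rw [hK]
    have : 0 < 4 / ε := by positivity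
    nlinarith
  have hK0 : 0 < K := by linarith
  refine ⟨⌈K ^ (1 / ε)⌉₊ + 1, fun N hN Q hQN c hc S hS hL => ?_⟩
  have hN1 : K ^ (1 / ε) ≤ N := by
    refine (Nat.le_ceil _).trans ?_
    exact_mod_cast (by omega : ⌈K ^ (1 / ε)⌉₊ ≤ N)
  have hNpos : 1 ≤ N := by omega
  have hNR : (1 : ℝ) ≤ N := by exact_mod_cast hNpos
  have hN0 : (0 : ℝ) < N := by linarith
  have hNε : K ≤ (N : ℝ) ^ ε := by
    calc K = (K ^ (1 / ε)) ^ ε := by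
          rw [← Real.rpow_mul hK0.le, one_div, inv_mul_cancel₀ hε.ne', Real.rpow_one]
      _ ≤ (N : ℝ) ^ ε := Real.rpow_le_rpow (by positivity) hN1 hε.le
  rcases Nat.eq_zero_or_pos S.card with hS0 | hS0
  · rw [hS0, Nat.cast_zero]
    positivity
  obtain ⟨s0, hs0⟩ := card_pos.1 hS0
  obtain ⟨hp0, hQ0, hQ20, -⟩ := hS s0 hs0
  have hQ1 : 1 ≤ Q := by
    have := hp0.pos
    omega
  have hQR : (1 : ℝ) ≤ Q := by exact_mod_cast hQ1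
  have h2Q : (0 : ℝ) < 2 * Q := by linarith
  have h2Q1 : (1 : ℝ) ≤ 2 * Q := by linarith
  have hkQ : k ≤ Q := by
    by_contra hlt
    push Not at hlt
    obtain ⟨ξ, u, v, hv, h1⟩ := hL s0 hs0
    have h2 : ‖∑ n ∈ Finset.Ioc u v, c n * e (((s0.2.eval (n : ℤ) : ℤ) : ℝ) / s0.1 + ξ * n)‖ ≤ N := by
      refine (norm_sum_le _ _).trans ?_
      have h5 : ∀ n ∈ Finset.Ioc u v,
          ‖c n * e (((s0.2.eval (n : ℤ) : ℤ) : ℝ) / s0.1 + ξ * n)‖ ≤ 1 := by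
        intro n _
        rw [norm_mul, norm_e, mul_one]
        exact hc n
      refine (sum_le_sum h5).trans ?_
      rw [sum_const, Nat.card_Ioc, nsmul_eq_mul, mul_one]
      exact_mod_cast (by omega : v - u ≤ N)
    have hq0 : (0 : ℝ) < s0.1 := by exact_mod_cast hp0.pos
    have hq1 : (1 : ℝ) ≤ s0.1 := by exact_mod_cast hp0.one_lt.le
    have h3 : (s0.1 : ℝ) ^ η ≤ 2 * k := by
      have h4 : (s0.1 : ℝ) ≤ 2 * k := by exact_mod_cast (by omega : s0.1 ≤ 2 * k)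
      calc (s0.1 : ℝ) ^ η ≤ (s0.1 : ℝ) ^ (1 : ℝ) :=
            Real.rpow_le_rpow_of_exponent_le hq1 (by linarith)
        _ = s0.1 := Real.rpow_one _
        _ ≤ _ := h4
    have h6 : (N : ℝ) < (N : ℝ) ^ (1 + ε) / (s0.1 : ℝ) ^ η := by
      rw [lt_div_iff₀ (by positivity), Real.rpow_add hN0, Real.rpow_one]
      have h7 : (s0.1 : ℝ) ^ η < (N : ℝ) ^ ε := h3.trans_lt (hK1.trans_le hNε)
      exact mul_lt_mul_of_pos_left h7 hN0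
    linarith
  set V : ℝ := (N : ℝ) ^ (1 + ε) * (2 * (Q : ℝ)) ^ (-η) with hV
  have hV0 : 0 < V := by positivity
  have hV2 : V ^ 2 = (N : ℝ) ^ (2 + 2 * ε) * (2 * (Q : ℝ)) ^ (-(2 * η)) := by
    rw [hV, mul_pow, ← Real.rpow_natCast, ← Real.rpow_mul hN0.le, ← Real.rpow_natCast,
      ← Real.rpow_mul h2Q.le]
    congr 2
    · push_cast; ring
    · push_cast; ring
  have hNN : (N : ℝ) ^ (2 + 2 * ε) = (N : ℝ) ^ 2 * (N : ℝ) ^ (2 * ε) := by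
    rw [Real.rpow_add hN0]
    norm_cast
  have hres : 2 * (N : ℝ) ^ 2 / V ^ 2 = 2 * (2 * (Q : ℝ)) ^ (2 * η) / (N : ℝ) ^ (2 * ε) := by
    rw [hV2, hNN, Real.rpow_neg h2Q.le]
    field_simp
  have hlog0 : 0 ≤ Real.log N := Real.log_nonneg hNR
  have hlog : (k : ℝ) ^ 2 * (10 + 4 * Real.log N) ≤ (N : ℝ) ^ (2 * ε) := by
    have h1 : Real.log N ≤ (N : ℝ) ^ ε / ε := Real.log_le_rpow_div hN0.le hε
    have h2 : (1 : ℝ) ≤ (N : ℝ) ^ ε := Real.one_le_rpow hNR hε.le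
    have h3 : 10 + 4 * Real.log N ≤ (10 + 4 / ε) * (N : ℝ) ^ ε := by
      have h4 : 4 * ((N : ℝ) ^ ε / ε) = 4 / ε * (N : ℝ) ^ ε := by ring
      nlinarith
    calc (k : ℝ) ^ 2 * (10 + 4 * Real.log N) ≤ (k : ℝ) ^ 2 * ((10 + 4 / ε) * (N : ℝ) ^ ε) :=
          mul_le_mul_of_nonneg_left h3 (by positivity)
      _ = K * (N : ℝ) ^ ε := by rw [hK]; ring
      _ ≤ (N : ℝ) ^ ε * (N : ℝ) ^ ε := mul_le_mul_of_nonneg_right hNε (by positivity)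
      _ = (N : ℝ) ^ (2 * ε) := by rw [← Real.rpow_add hN0]; congr 1; ring
  have h2QN : 2 * (Q : ℝ) ≤ N := by
    calc 2 * (Q : ℝ) = (2 * (Q : ℝ)) ^ (1 : ℝ) := (Real.rpow_one _).symm
      _ ≤ (2 * (Q : ℝ)) ^ (1 + 2 * η) := Real.rpow_le_rpow_of_exponent_le h2Q1 (by linarith)
      _ ≤ N := hQN
  have hlogQ : Real.log (2 * (Q : ℝ)) ≤ Real.log N := Real.log_le_log h2Q h2QN
  set y : ℝ := (2 * (Q : ℝ)) ^ (-(2 * η)) with hy
  have hy0 : 0 < y := by positivity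
  have hsQ : 0 < √(Q : ℝ) := Real.sqrt_pos.2 (by linarith)
  have h1Q : 1 / √(Q : ℝ) ≤ 2 * y := by
    have h1 : 1 / √(Q : ℝ) = √2 * (2 * (Q : ℝ)) ^ (-(1 / 2) : ℝ) := by
      rw [Real.rpow_neg h2Q.le, ← Real.sqrt_eq_rpow, Real.sqrt_mul (by norm_num)]
      have : 0 < √(2 : ℝ) := by positivity
      field_simp
    rw [h1]
    have h2 : √(2 : ℝ) ≤ 2 := by
      rw [Real.sqrt_le_left (by norm_num)]
      norm_num
    have h3 : (2 * (Q : ℝ)) ^ (-(1 / 2) : ℝ) ≤ y :=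
      Real.rpow_le_rpow_of_exponent_le h2Q1 (by linarith)
    exact mul_le_mul h2 h3 (by positivity) (by norm_num)
  have hQy : 2 * (Q : ℝ) ≤ N * y := by
    have h1 : 2 * (Q : ℝ) = (2 * (Q : ℝ)) ^ (1 + 2 * η) * y := by
      rw [hy, ← Real.rpow_add h2Q]
      have : 1 + 2 * η + -(2 * η) = 1 := by ring
      rw [this, Real.rpow_one]
    calc 2 * (Q : ℝ) = (2 * (Q : ℝ)) ^ (1 + 2 * η) * y := h1
      _ ≤ _ := mul_le_mul_of_nonneg_right hQN hy0.le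
  have hcond : 2 * N * Bd k Q N ≤ V ^ 2 := by
    rw [hV2, hNN]
    unfold Bd
    have h1 : ((k : ℝ) - 1) ^ 2 ≤ (k : ℝ) ^ 2 := by nlinarith
    have h2 : 2 * (N : ℝ) / √(Q : ℝ) + 2 * Q * (1 + 2 * Real.log (2 * Q)) ≤
        4 * N * y + N * y * (1 + 2 * Real.log N) := by
      have h3 : 2 * (N : ℝ) / √(Q : ℝ) ≤ 4 * N * y := by
        have : 2 * (N : ℝ) / √(Q : ℝ) = 2 * N * (1 / √(Q : ℝ)) := by ring
        rw [this]
        calc 2 * (N : ℝ) * (1 / √(Q : ℝ)) ≤ 2 * N * (2 * y) :=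
              mul_le_mul_of_nonneg_left h1Q (by positivity)
          _ = _ := by ring
      have h4 : 0 ≤ Real.log (2 * (Q : ℝ)) := Real.log_nonneg h2Q1
      have h5 : 2 * (Q : ℝ) * (1 + 2 * Real.log (2 * Q)) ≤ N * y * (1 + 2 * Real.log N) :=
        mul_le_mul hQy (by linarith) (by linarith) (by positivity)
      linarith
    calc 2 * (N : ℝ) * (((k : ℝ) - 1) ^ 2 * (2 * N / √(Q : ℝ) + 2 * Q * (1 + 2 * Real.log (2 * Q)))) ≤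
          2 * N * ((k : ℝ) ^ 2 * (4 * N * y + N * y * (1 + 2 * Real.log N))) := by
          refine mul_le_mul_of_nonneg_left ?_ (by positivity)
          exact mul_le_mul h1 h2 (by
            have : 0 ≤ Real.log (2 * (Q : ℝ)) := Real.log_nonneg h2Q1
            positivity) (by positivity)
      _ = (N : ℝ) ^ 2 * y * ((k : ℝ) ^ 2 * (10 + 4 * Real.log N)) := by ring
      _ ≤ (N : ℝ) ^ 2 * y * (N : ℝ) ^ (2 * ε) := mul_le_mul_of_nonneg_left hlog (by positivity)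
      _ = _ := by ring
  rw [← hres]
  refine many hk hkQ c hc hV0 hcond S hS fun s hs => ?_
  obtain ⟨ξ, u, v, hv, h1⟩ := hL s hs
  obtain ⟨hp, hQ', hQ2', -⟩ := hS s hs
  refine ⟨ξ, u, v, hv, le_trans ?_ h1.le⟩
  have hq0 : (0 : ℝ) < s.1 := by exact_mod_cast hp.pos
  rw [hV, Real.rpow_neg h2Q.le, ← div_eq_mul_inv]
  have h2 : (s.1 : ℝ) ^ η ≤ (2 * (Q : ℝ)) ^ η :=
    Real.rpow_le_rpow hq0.le (by exact_mod_cast hQ2') hη0
  gcongr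

/-- **almost all primes** -/
theorem primes_hk {k : ℕ} (hk : 4 ≤ k) {ε : ℝ} (hε : 0 < ε) :
    ∃ N₀ : ℕ, ∀ N : ℕ, N₀ ≤ N → ∀ Q : ℕ, (2 * (Q : ℝ)) ^ (1 + 2 / (k : ℝ)) ≤ N → ∀ t : ℝ,
    (({q : ℕ | q.Prime ∧ Q < q ∧ q ≤ 2 * Q ∧ ∃ b : ℕ, 1 ≤ b ∧ b < q ∧ ∃ ξ : ℝ,
      (N : ℝ) ^ (1 + ε) * (1 / (q : ℝ) + 1 / (N : ℝ) + (q : ℝ) / (N : ℝ) ^ k) ^ (1 / (k : ℝ)) <
      ‖∑ n ∈ Finset.Icc 1 N, e ((t + (b : ℝ) / (q : ℝ)) * (n : ℝ) ^ k + ξ * (n : ℝ))‖}.ncard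
        : ℕ) : ℝ) ≤ 2 * (2 * (Q : ℝ)) ^ (2 / (k : ℝ)) / (N : ℝ) ^ (2 * ε) := by
  classical
  have hkR : (4 : ℝ) ≤ k := by exact_mod_cast hk
  have hk0 : (0 : ℝ) < k := by linarith
  obtain ⟨N₀, h0⟩ := many_eta (k := k) (by omega) (η := 1 / (k : ℝ)) (by positivity)
    (by rw [div_le_div_iff₀ hk0 (by norm_num)]; linarith) hε
  refine ⟨max N₀ 1, fun N hN Q hQN t => ?_⟩
  have hN1 : 1 ≤ N := (le_max_right _ _).trans hN
  have hN0 : (0 : ℝ) < N := by exact_mod_cast hN1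
  set P : Set ℕ := {q : ℕ | q.Prime ∧ Q < q ∧ q ≤ 2 * Q ∧ ∃ b : ℕ, 1 ≤ b ∧ b < q ∧ ∃ ξ : ℝ,
      (N : ℝ) ^ (1 + ε) * (1 / (q : ℝ) + 1 / (N : ℝ) + (q : ℝ) / (N : ℝ) ^ k) ^ (1 / (k : ℝ)) <
      ‖∑ n ∈ Finset.Icc 1 N, e ((t + (b : ℝ) / (q : ℝ)) * (n : ℝ) ^ k + ξ * (n : ℝ))‖} with hP
  have hfin : P.Finite := (Set.finite_Iic (2 * Q)).subset fun q hq => hq.2.2.1
  have hex : ∀ q : ℕ, ∃ b : ℕ, q ∈ P → 1 ≤ b ∧ b < q ∧ ∃ ξ : ℝ,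
      (N : ℝ) ^ (1 + ε) * (1 / (q : ℝ) + 1 / (N : ℝ) + (q : ℝ) / (N : ℝ) ^ k) ^ (1 / (k : ℝ)) <
      ‖∑ n ∈ Finset.Icc 1 N, e ((t + (b : ℝ) / (q : ℝ)) * (n : ℝ) ^ k + ξ * (n : ℝ))‖ := by
    intro q
    by_cases hq : q ∈ P
    · obtain ⟨_, _, _, b, h⟩ := hq
      exact ⟨b, fun _ => h⟩
    · exact ⟨0, fun h => absurd h hq⟩
  choose b hb using hex
  set S : Finset (ℕ × ℤ[X]) := hfin.toFinset.image (fun q => (q, C ((b q : ℕ) : ℤ) * X ^ k)) with hS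
  have hcard : S.card = P.ncard := by
    rw [hS, card_image_of_injOn, Set.ncard_eq_toFinset_card P hfin]
    intro q _ q' _ h
    exact congrArg Prod.fst h
  rw [← hcard]
  have h2k : 2 * (1 / (k : ℝ)) = 2 / k := by ring
  have h1 := h0 N ((le_max_left _ _).trans hN) Q (by rw [h2k]; exact hQN)
    (fun n => e (t * (n : ℝ) ^ k)) (fun n => (norm_e _).le) S ?_ ?_
  · rw [h2k] at h1
    exact h1
  · intro s hs
    rw [hS, mem_image] at hs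
    obtain ⟨q, hq, rfl⟩ := hs
    have hqP : q ∈ P := hfin.mem_toFinset.1 hq
    obtain ⟨hb1, hb2, -⟩ := hb q hqP
    obtain ⟨hp, hQ1, hQ2, -⟩ := hqP
    refine ⟨hp, hQ1, hQ2, ?_, ?_, ?_, ?_, ?_⟩
    · intro h
      have h' : (C ((b q : ℕ) : ℤ) * X ^ k : ℤ[X]) = 0 := h
      have h2 : (C ((b q : ℕ) : ℤ) * X ^ k : ℤ[X]).coeff k = 0 := by rw [h', coeff_zero]
      rw [coeff_C_mul_X_pow, if_pos rfl] at h2
      have : b q = 0 := by exact_mod_cast h2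
      omega
    · exact natDegree_C_mul_X_pow_le _ _
    · rw [coeff_C_mul_X_pow, if_neg (by omega)]
    · rw [coeff_C_mul_X_pow, if_neg (by omega)]
    · intro i
      rw [coeff_C_mul_X_pow]
      split_ifs
      · exact ⟨by positivity, by exact_mod_cast hb2⟩
      · exact ⟨le_refl _, by exact_mod_cast hp.pos⟩
  · intro s hs
    rw [hS, mem_image] at hs
    obtain ⟨q, hq, rfl⟩ := hs
    have hqP : q ∈ P := hfin.mem_toFinset.1 hq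
    obtain ⟨hb1, hb2, ξ, h2⟩ := hb q hqP
    have hq0 : (0 : ℝ) < q := by exact_mod_cast hqP.1.pos
    refine ⟨ξ, 0, N, le_refl _, ?_⟩
    have h3 : (N : ℝ) ^ (1 + ε) / (q : ℝ) ^ (1 / (k : ℝ)) ≤
        (N : ℝ) ^ (1 + ε) * (1 / (q : ℝ) + 1 / (N : ℝ) + (q : ℝ) / (N : ℝ) ^ k) ^ (1 / (k : ℝ)) := by
      rw [div_eq_mul_inv, ← Real.inv_rpow hq0.le]
      refine mul_le_mul_of_nonneg_left ?_ (by positivity)
      refine Real.rpow_le_rpow (by positivity) ?_ (by positivity)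
      have h4 : (0 : ℝ) ≤ 1 / (N : ℝ) := by positivity
      have h5 : (0 : ℝ) ≤ (q : ℝ) / (N : ℝ) ^ k := by positivity
      rw [one_div]
      linarith
    refine lt_of_le_of_lt h3 (h2.trans_le (le_of_eq ?_))
    congr 1
    have h6 : Finset.Icc 1 N = Finset.Ioc 0 N := rfl
    rw [h6]
    refine sum_congr rfl fun n _ => ?_
    simp only
    rw [← e_add, eval_mul, eval_C, eval_pow, eval_X]
    congr 1
    push_cast
    field_simp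
    ring

end Pool.Agent.Y951.MW
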